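import Pool.Agent.Q64.EJ.StB

/-!
Project EI (helper64), row MP_2f98db_ag: homotopy formulas (job HOM).
-/

set_option autoImplicit false

open Finset MvPolynomial

namespace Pool.Agent.Q64.EJ

section

variable {d n : ℕ} (A : Matrix (Fin (d + 1)) (Fin (n + 1)) ℂ) (u : Fin (n + 1) → ℂ)

theorem oe_eul (hcol : ∀ j, ∃ i, A i j ≠ 0) :
    ∑ i, tt d n i * oe A u i = algebraMap ℂ (Fld d n) (∑ j, u j) - ff A := by
  have h1 : ∑ i, tt d n i * fder (Sum.inl i) (ff A) = -ff A := by
    have := tdeg_ff A
    unfold TDeg at this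
    rw [this]
    push_cast
    ring
  have h2 : ∀ j, ∑ i, tt d n i * fder (Sum.inl i) (el A j) = el A j := by
    intro j
    have := tdeg_el A j
    unfold TDeg at this
    rw [this]
    push_cast
    ring
  have h3 : ∑ i, tt d n i * ∑ j, u j • (fder (Sum.inl i) (el A j) / el A j) =
      algebraMap ℂ (Fld d n) (∑ j, u j) := by
    have : ∀ i, tt d n i * ∑ j, u j • (fder (Sum.inl i) (el A j) / el A j) =
        ∑ j, u j • (tt d n i * fder (Sum.inl i) (el A j) / el A j) := by
      intro i
      rw [Finset.mul_sum]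
      exact Finset.sum_congr rfl fun j _ => by rw [mul_smul_comm, mul_div_assoc]
    simp only [this]
    rw [Finset.sum_comm, map_sum]
    refine Finset.sum_congr rfl fun j _ => ?_
    rw [← Finset.smul_sum, ← Finset.sum_div, h2 j, div_self (el_ne A hcol j),
      Algebra.algebraMap_eq_smul_one]
  simp only [oe, mul_add, Finset.sum_add_distrib]
  rw [h1, h3]
  ring

theorem oe_symm (i j : Fin (d + 1)) :
    fder (Sum.inl i) (oe A u j) = fder (Sum.inl j) (oe A u i) := by
  have e : ∀ i j : Fin (d + 1), fder (Sum.inl i) (oe A u j) =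
      fder (Sum.inl i) (fder (Sum.inl j) (ff A)) +
        ∑ k, u k • fder (Sum.inl i) (fder (Sum.inl j) (el A k) / el A k) := by
    intro i j
    rw [oe, map_add, map_sum]
    exact congrArg _ (Finset.sum_congr rfl fun k _ => Derivation.map_smul _ _ _)
  rw [e i j, e j i, fder_comm (Sum.inl i) (Sum.inl j) (ff A)]
  exact congrArg _ (Finset.sum_congr rfl fun k _ => by rw [log_symm])

theorem hom1 (hcol : ∀ j, ∃ i, A i j ≠ 0) (h : Fld d n) :
    ∑ i, ne A u i (tt d n i * h) = lie A u (d + 1) h := by
  have h1 : ∀ i, ne A u i (tt d n i * h) = h + tt d n i * fder (Sum.inl i) h +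
      (tt d n i * oe A u i) * h := by
    intro i
    rw [ne_apply, Derivation.leibniz, fder_tt, if_pos rfl]
    simp only [smul_eq_mul]
    ring
  simp only [h1, Finset.sum_add_distrib]
  rw [← Finset.sum_mul, oe_eul A u hcol, lie, Finset.sum_const, Finset.card_univ, Fintype.card_fin,
    nsmul_eq_mul, Algebra.smul_def, map_add]
  push_cast
  ring

theorem hom2 (hcol : ∀ j, ∃ i, A i j ≠ 0) (h : Fin (d + 1) → Fld d n) (i : Fin (d + 1)) :
    lie A u d (h i) = ∑ k, ne A u k (tt d n k * h i - tt d n i * h k) +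
      tt d n i * ∑ k, ne A u k (h k) := by
  have h1 : ∀ k, ne A u k (tt d n i * h k) = (if k = i then h k else 0) +
      tt d n i * ne A u k (h k) := by
    intro k
    rw [ne_apply, ne_apply, Derivation.leibniz, fder_tt]
    simp only [smul_eq_mul, Sum.inl.injEq]
    split_ifs <;> ring
  have h2 : lie A u (d + 1) (h i) = lie A u d (h i) + h i := by
    rw [lie, lie, Algebra.smul_def, Algebra.smul_def, map_add, map_add]
    push_cast
    ring
  have h3 := hom1 A u hcol (h i)
  simp only [map_sub, Finset.sum_sub_distrib, h1, Finset.sum_add_distrib]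
  rw [h3, h2, Finset.sum_ite_eq' univ i, if_pos (Finset.mem_univ i), ← Finset.mul_sum]
  ring

theorem hom3 (i j : Fin (d + 1)) (g : Fld d n) :
    ne A u i (ne A u j g) = ne A u j (ne A u i g) := by
  simp only [ne_apply, map_add, Derivation.leibniz, smul_eq_mul]
  rw [fder_comm (Sum.inl i) (Sum.inl j) g, oe_symm A u i j]
  ring

end

theorem hom : S_hom := fun A u hcol => ⟨hom1 A u hcol, hom2 A u hcol, hom3 A u⟩

end Pool.Agent.Q64.EJ
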