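import Pool.Agent.Q64.EJ.Bas

/-!
Project EI (helper64), row MP_2f98db_ag: statements of the first lemma jobs (abstract part).
-/

set_option autoImplicit false

open Finset MvPolynomial

namespace Pool.Agent.Q64.EJ

/-- The Weyl algebra is left noetherian. -/
def S_noe : Prop := ∀ m : ℕ, IsNoetherianRing (DZ m)

/-- `h ↦ h(∂)` and `h ↦ h(z)` are algebra homomorphisms, and every element of the Weyl algebra is
a sum of elements `z^a h_a(∂)`. -/
def S_pbw : Prop := ∀ m : ℕ, ∃ φ ψ : MvPolynomial (Fin m) ℂ →ₐ[ℂ] DZ m,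
  (∀ h, φ h = hd h) ∧ (∀ j, φ (X j) = dd j) ∧ (∀ j, ψ (X j) = zz j) ∧
    ∀ Q : DZ m, ∃ c : (Fin m →₀ ℕ) →₀ MvPolynomial (Fin m) ℂ,
      Q = c.sum fun a h => ψ (monomial a 1) * φ h

/-- The vector `v` is annihilated by the matroid hypergeometric ideal. -/
def Rel {d n : ℕ} (A : Matrix (Fin (d + 1)) (Fin (n + 1)) ℂ) (u : Fin (n + 1) → ℂ) {M : Type}
    [AddCommGroup M] [Module (DZ (n + 1)) M] (v : M) : Prop :=
  ∀ Q ∈ HL A u, Q • v = 0

/-- Reduction: a nonzero vector with the relations of `HL A u` which is killed by a power of some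
`∂_j` gives a set `S ≠ univ` and a vector `w` killed by all `∂_k`, `k ∉ S`, but by no power of
`∏_(j ∈ S) ∂_j`, with the relations for a shifted parameter. -/
def S_lm1 : Prop := ∀ {d n : ℕ} (A : Matrix (Fin (d + 1)) (Fin (n + 1)) ℂ) (u : Fin (n + 1) → ℂ)
  (M : Type) [AddCommGroup M] [Module (DZ (n + 1)) M] (v : M), Rel A u v → v ≠ 0 →
  (∃ (j : Fin (n + 1)) (N : ℕ), (dd j : DZ (n + 1)) ^ N • v = 0) →
  ∃ (S : Finset (Fin (n + 1))) (a : Fin (n + 1) → ℕ) (w : M), S ≠ univ ∧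
    Rel A (fun j => u j - a j) w ∧ (∀ k ∉ S, (dd k : DZ (n + 1)) • w = 0) ∧
    ∀ N : ℕ, hd ((∏ j ∈ S, X j) ^ N) • w ≠ 0

/-- The Euler identity on the stratum of `S`. -/
def S_lm2 : Prop := ∀ {d n : ℕ} (A : Matrix (Fin (d + 1)) (Fin (n + 1)) ℂ) (u : Fin (n + 1) → ℂ)
  (M : Type) [AddCommGroup M] [Module (DZ (n + 1)) M] (S : Finset (Fin (n + 1))) (w : M),
  Rel A u w → (∀ k ∉ S, (dd k : DZ (n + 1)) • w = 0) →
  ∃ r : ℕ, algebraMap ℂ (DZ (n + 1)) (∑ j ∈ Sᶜ, u j + (d + 1) - r) •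
    (hd (∏ j ∈ S, X j) • w) = 0

/-- The parameter `u` is non-resonant: no sum over a nonempty set of coordinates is an integer. -/
def NonRes {n : ℕ} (u : Fin (n + 1) → ℂ) : Prop :=
  ∀ S : Finset (Fin (n + 1)), S.Nonempty → ∀ k : ℤ, ∑ j ∈ S, u j ≠ k

/-- Torsion vectors with the relations of a non-resonant parameter vanish. -/
def S_lma : Prop := ∀ {d n : ℕ} (A : Matrix (Fin (d + 1)) (Fin (n + 1)) ℂ) (u : Fin (n + 1) → ℂ)
  (M : Type) [AddCommGroup M] [Module (DZ (n + 1)) M] (v : M), Rel A u v → NonRes u →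
  (∃ (j : Fin (n + 1)) (N : ℕ), (dd j : DZ (n + 1)) ^ N • v = 0) → v = 0

/-- Genericity: outside countably many hypersurfaces the parameter is non-resonant and can be
moved by all integral translations by field automorphisms which fix a given countable set. -/
def S_aut : Prop := ∀ (n : ℕ) (c : Set ℂ), c.Countable →
  ∃ S : Set (MvPolynomial (Fin (n + 1)) ℂ), S.Countable ∧ (0 : MvPolynomial (Fin (n + 1)) ℂ) ∉ S ∧
    ∀ u : Fin (n + 1) → ℂ, (∀ p ∈ S, eval u p ≠ 0) → NonRes u ∧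
      ∀ k : Fin (n + 1) → ℤ, ∃ σ : ℂ ≃+* ℂ, (∀ x ∈ c, σ x = x) ∧ ∀ j, σ (u j) = u j + k j

/-- Exactness of a Koszul complex of operators `T_i = z_i e_i + δ_i` on `N[z_0, …, z_(k-1)]` in
the last but one place. -/
def S_kos : Prop := ∀ (k : ℕ) (N : Type) [AddCommGroup N] (δ e e' : Fin k → AddMonoid.End N),
  (∀ i, e i * e' i = 1 ∧ e' i * e i = 1) →
  (∀ i j, i ≠ j → e i * e j = e j * e i ∧ e i * δ j = δ j * e i ∧ δ i * δ j = δ j * δ i) →
  ∀ T : Fin k → AddMonoid.End ((Fin k →₀ ℕ) →₀ N),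
  (∀ i a x, T i (Finsupp.single a x) =
    Finsupp.single (a + Finsupp.single i 1) (e i x) + Finsupp.single a (δ i x)) →
  ∀ g : Fin k → ((Fin k →₀ ℕ) →₀ N), ∑ i, T i (g i) = 0 →
  ∃ b : Fin k → Fin k → ((Fin k →₀ ℕ) →₀ N),
    (∀ i j, b i j = -b j i) ∧ (∀ i, b i i = 0) ∧ ∀ i, g i = ∑ j, T j (b i j)

end Pool.Agent.Q64.EJ
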