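import Mathlib

/-!
Project EI (helper64), row MP_2f98db_ag: the matroid hypergeometric system and Euler integrals.
Definitions of the objects of the problem.
-/

set_option autoImplicit false

open Finset MvPolynomial

namespace Pool.Agent.Q64.EJ

/-! ### The Weyl algebra -/

/-- The defining relations of the Weyl algebra; `inl j` is `z_j` and `inr j` is `∂_j`. -/
inductive WRel (m : ℕ) :
    FreeAlgebra ℂ (Fin m ⊕ Fin m) → FreeAlgebra ℂ (Fin m ⊕ Fin m) → Prop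
  | zz (i j : Fin m) : WRel m
      (FreeAlgebra.ι ℂ (Sum.inl i) * FreeAlgebra.ι ℂ (Sum.inl j))
      (FreeAlgebra.ι ℂ (Sum.inl j) * FreeAlgebra.ι ℂ (Sum.inl i))
  | dd (i j : Fin m) : WRel m
      (FreeAlgebra.ι ℂ (Sum.inr i) * FreeAlgebra.ι ℂ (Sum.inr j))
      (FreeAlgebra.ι ℂ (Sum.inr j) * FreeAlgebra.ι ℂ (Sum.inr i))
  | dz (i j : Fin m) : WRel m
      (FreeAlgebra.ι ℂ (Sum.inr i) * FreeAlgebra.ι ℂ (Sum.inl j))
      (FreeAlgebra.ι ℂ (Sum.inl j) * FreeAlgebra.ι ℂ (Sum.inr i) + if i = j then 1 else 0)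

/-- The Weyl algebra in `z_0, …, z_(m-1)` and `∂_0, …, ∂_(m-1)`. -/
abbrev DZ (m : ℕ) : Type := RingQuot (WRel m)

/-- The element `z_j` of the Weyl algebra. -/
noncomputable def zz {m : ℕ} (j : Fin m) : DZ m :=
  RingQuot.mkAlgHom ℂ (WRel m) (FreeAlgebra.ι ℂ (Sum.inl j))

/-- The element `∂_j` of the Weyl algebra. -/
noncomputable def dd {m : ℕ} (j : Fin m) : DZ m :=
  RingQuot.mkAlgHom ℂ (WRel m) (FreeAlgebra.ι ℂ (Sum.inr j))

/-- The constant coefficient operator `h(∂_0, …, ∂_(m-1))`. -/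
noncomputable def hd {m : ℕ} (h : MvPolynomial (Fin m) ℂ) : DZ m :=
  ∑ a ∈ h.support, h.coeff a • (List.ofFn fun j : Fin m => dd j ^ a j).prod

theorem zz_comm {m : ℕ} (i j : Fin m) : (zz i * zz j : DZ m) = zz j * zz i := by
  have h := RingQuot.mkAlgHom_rel ℂ (WRel.zz i j)
  rw [map_mul, map_mul] at h
  exact h

theorem dd_comm {m : ℕ} (i j : Fin m) : (dd i * dd j : DZ m) = dd j * dd i := by
  have h := RingQuot.mkAlgHom_rel ℂ (WRel.dd i j)
  rw [map_mul, map_mul] at h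
  exact h

theorem dd_zz {m : ℕ} (i j : Fin m) :
    (dd i * zz j : DZ m) = zz j * dd i + if i = j then 1 else 0 := by
  have h := RingQuot.mkAlgHom_rel ℂ (WRel.dz i j)
  have e : RingQuot.mkAlgHom ℂ (WRel m) (if i = j then 1 else 0) =
      (if i = j then 1 else 0 : RingQuot (WRel m)) := by split_ifs <;> simp
  rw [map_mul, map_add, map_mul, e] at h
  exact h

/-- The projection from the free algebra. -/
noncomputable def mkW (m : ℕ) : FreeAlgebra ℂ (Fin m ⊕ Fin m) →ₐ[ℂ] DZ m :=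
  RingQuot.mkAlgHom ℂ (WRel m)

theorem mkW_surjective (m : ℕ) : Function.Surjective (mkW m) :=
  RingQuot.mkAlgHom_surjective ℂ (WRel m)

/-- The Weyl algebra is generated by the `z_j` and the `∂_j`. -/
theorem dz_top {m : ℕ} (S : Subalgebra ℂ (DZ m)) (hz : ∀ j, zz j ∈ S) (hd' : ∀ j, dd j ∈ S) :
    S = ⊤ := by
  rw [eq_top_iff]
  rintro Q -
  obtain ⟨x, rfl⟩ := mkW_surjective m Q
  induction x using FreeAlgebra.induction with
  | grade0 r => rw [AlgHom.commutes]; exact S.algebraMap_mem r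
  | grade1 x =>
    rcases x with j | j
    · exact hz j
    · exact hd' j
  | mul a b ha hb => rw [map_mul]; exact S.mul_mem ha hb
  | add a b ha hb => rw [map_add]; exact S.add_mem ha hb

theorem dz_induction {m : ℕ} {P : DZ m → Prop} (hz : ∀ j, P (zz j)) (hd' : ∀ j, P (dd j))
    (hc : ∀ c : ℂ, P (algebraMap ℂ (DZ m) c)) (hm : ∀ a b, P a → P b → P (a * b))
    (ha : ∀ a b, P a → P b → P (a + b)) (Q : DZ m) : P Q := by
  let S : Subalgebra ℂ (DZ m) :=
    { carrier := {Q | P Q}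
      mul_mem' := fun h1 h2 => hm _ _ h1 h2
      add_mem' := fun h1 h2 => ha _ _ h1 h2
      algebraMap_mem' := hc }
  have : Q ∈ S := by
    rw [dz_top S hz hd']
    trivial
  exact this

/-- The universal property of the Weyl algebra. -/
noncomputable def lift {m : ℕ} {B : Type} [Ring B] [Algebra ℂ B] (Z D : Fin m → B)
    (h1 : ∀ i j, Z i * Z j = Z j * Z i) (h2 : ∀ i j, D i * D j = D j * D i)
    (h3 : ∀ i j, D i * Z j = Z j * D i + if i = j then 1 else 0) : DZ m →ₐ[ℂ] B :=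
  RingQuot.liftAlgHom ℂ ⟨FreeAlgebra.lift ℂ (Sum.elim Z D), by
    intro a b hab
    cases hab with
    | zz i j => simpa using h1 i j
    | dd i j => simpa using h2 i j
    | dz i j =>
      rw [map_mul, map_add, map_mul]
      simp only [FreeAlgebra.lift_ι_apply, Sum.elim_inl, Sum.elim_inr]
      rw [h3 i j]
      congr 1
      split_ifs <;> simp⟩

theorem lift_zz {m : ℕ} {B : Type} [Ring B] [Algebra ℂ B] (Z D : Fin m → B)
    (h1 : ∀ i j, Z i * Z j = Z j * Z i) (h2 : ∀ i j, D i * D j = D j * D i)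
    (h3 : ∀ i j, D i * Z j = Z j * D i + if i = j then 1 else 0) (j : Fin m) :
    lift Z D h1 h2 h3 (zz j) = Z j :=
  (RingQuot.liftAlgHom_mkAlgHom_apply ℂ _ _ _).trans (by simp)

theorem lift_dd {m : ℕ} {B : Type} [Ring B] [Algebra ℂ B] (Z D : Fin m → B)
    (h1 : ∀ i j, Z i * Z j = Z j * Z i) (h2 : ∀ i j, D i * D j = D j * D i)
    (h3 : ∀ i j, D i * Z j = Z j * D i + if i = j then 1 else 0) (j : Fin m) :
    lift Z D h1 h2 h3 (dd j) = D j :=
  (RingQuot.liftAlgHom_mkAlgHom_apply ℂ _ _ _).trans (by simp)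

/-! ### The matroid hypergeometric ideal -/

section Sys

variable {d n : ℕ} (A : Matrix (Fin (d + 1)) (Fin (n + 1)) ℂ) (u : Fin (n + 1) → ℂ)

/-- The value of the linear form `ℓ_j` at the point `t`. -/
def ev (t : Fin (d + 1) → ℂ) (j : Fin (n + 1)) : ℂ := ∑ i, A i j * t i

/-- The polynomial `h` vanishes on the reciprocal linear space `L^(-1)`: at all points
`(1/ℓ_0(t), …, 1/ℓ_n(t))`. -/
def VanRec (h : MvPolynomial (Fin (n + 1)) ℂ) : Prop :=
  ∀ t : Fin (d + 1) → ℂ, (∀ j, ev A t j ≠ 0) → eval (fun j => (ev A t j)⁻¹) h = 0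

/-- The number `s = -(u_0 + ⋯ + u_n) - (d + 1)`. -/
noncomputable def sp (d : ℕ) {n : ℕ} (u : Fin (n + 1) → ℂ) : ℂ := -(∑ j, u j) - (d + 1)

/-- The Euler operator `H = ∑ z_j ∂_j + s`. -/
noncomputable def eul (d : ℕ) {n : ℕ} (u : Fin (n + 1) → ℂ) : DZ (n + 1) :=
  ∑ j, zz j * dd j + algebraMap ℂ (DZ (n + 1)) (sp d u)

/-- The operator `P_i = ∑ a_ij (z_j ∂_j^2 - u_j ∂_j)`. -/
noncomputable def pop (i : Fin (d + 1)) : DZ (n + 1) :=
  ∑ j, A i j • (zz j * dd j ^ 2 - u j • dd j)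

/-- The matroid hypergeometric ideal `H_L(u)`, a left ideal of the Weyl algebra. -/
noncomputable def HL : Submodule (DZ (n + 1)) (DZ (n + 1)) :=
  Submodule.span (DZ (n + 1)) ({eul d u} ∪ Set.range (pop A u) ∪
    {Q | ∃ (h : MvPolynomial (Fin (n + 1)) ℂ) (k : ℕ), h.IsHomogeneous k ∧ VanRec A h ∧ Q = hd h})

end Sys

/-! ### Rational functions in `t` and `z` -/

/-- Polynomials in `t_0, …, t_d` (`inl`) and `z_0, …, z_n` (`inr`). -/
abbrev Pol (d n : ℕ) : Type := MvPolynomial (Fin (d + 1) ⊕ Fin (n + 1)) ℂ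

/-- The field of rational functions in `t_0, …, t_d` and `z_0, …, z_n`. -/
abbrev Fld (d n : ℕ) : Type := FractionRing (Pol d n)

open TrivSqZeroExt in
/-- Auxiliary: the homomorphism `p ↦ p + ε ∂p`. -/
noncomputable def epsHom {d n : ℕ} (v : Fin (d + 1) ⊕ Fin (n + 1)) :
    (MvPolynomial (Fin (d + 1) ⊕ Fin (n + 1)) ℂ) →ₐ[ℂ] TrivSqZeroExt (FractionRing (MvPolynomial (Fin (d + 1) ⊕ Fin (n + 1)) ℂ)) (FractionRing (MvPolynomial (Fin (d + 1) ⊕ Fin (n + 1)) ℂ)) where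
  toFun p := inl (algebraMap ((MvPolynomial (Fin (d + 1) ⊕ Fin (n + 1)) ℂ)) (FractionRing (MvPolynomial (Fin (d + 1) ⊕ Fin (n + 1)) ℂ)) p) +
    inr (algebraMap ((MvPolynomial (Fin (d + 1) ⊕ Fin (n + 1)) ℂ)) (FractionRing (MvPolynomial (Fin (d + 1) ⊕ Fin (n + 1)) ℂ)) (pderiv v p))
  map_one' := by
    rw [map_one, pderiv_one, map_zero]
    simp
  map_mul' p q := by
    rw [pderiv_mul]
    refine TrivSqZeroExt.ext ?_ ?_
    · simp
    · simp only [snd_add, snd_inl, snd_inr, zero_add, snd_mul, fst_add, fst_inl, fst_inr,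
        add_zero, map_add, map_mul, smul_eq_mul, MulOpposite.smul_eq_mul_unop,
        MulOpposite.unop_op]
      ring
  map_zero' := by simp
  map_add' p q := by
    refine TrivSqZeroExt.ext ?_ ?_
    · simp
    · simp only [snd_add, snd_inl, snd_inr, zero_add, map_add]
  commutes' c := by
    rw [MvPolynomial.algebraMap_eq, pderiv_C, map_zero]
    refine TrivSqZeroExt.ext ?_ ?_
    · simp only [inr_zero, add_zero, fst_inl, TrivSqZeroExt.algebraMap_eq_inl']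
      rw [← MvPolynomial.algebraMap_eq, ← IsScalarTower.algebraMap_apply]
    · simp [TrivSqZeroExt.algebraMap_eq_inl']

open TrivSqZeroExt in
theorem exists_fder {d n : ℕ} (v : Fin (d + 1) ⊕ Fin (n + 1)) :
    ∃ D : Derivation ℂ (FractionRing (MvPolynomial (Fin (d + 1) ⊕ Fin (n + 1)) ℂ)) (FractionRing (MvPolynomial (Fin (d + 1) ⊕ Fin (n + 1)) ℂ)),
      ∀ p : (MvPolynomial (Fin (d + 1) ⊕ Fin (n + 1)) ℂ), D (algebraMap ((MvPolynomial (Fin (d + 1) ⊕ Fin (n + 1)) ℂ)) (FractionRing (MvPolynomial (Fin (d + 1) ⊕ Fin (n + 1)) ℂ)) p) =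
        algebraMap ((MvPolynomial (Fin (d + 1) ⊕ Fin (n + 1)) ℂ)) (FractionRing (MvPolynomial (Fin (d + 1) ⊕ Fin (n + 1)) ℂ)) (pderiv v p) := by
  classical
  have hψ : ∀ p, epsHom v p = inl (algebraMap ((MvPolynomial (Fin (d + 1) ⊕ Fin (n + 1)) ℂ)) (FractionRing (MvPolynomial (Fin (d + 1) ⊕ Fin (n + 1)) ℂ)) p) +
    inr (algebraMap ((MvPolynomial (Fin (d + 1) ⊕ Fin (n + 1)) ℂ)) (FractionRing (MvPolynomial (Fin (d + 1) ⊕ Fin (n + 1)) ℂ)) (pderiv v p)) := fun p => rfl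
  have hu : ∀ y : nonZeroDivisors ((MvPolynomial (Fin (d + 1) ⊕ Fin (n + 1)) ℂ)), IsUnit ((epsHom v).toRingHom (y : (MvPolynomial (Fin (d + 1) ⊕ Fin (n + 1)) ℂ))) := by
    intro y
    rw [TrivSqZeroExt.isUnit_iff_isUnit_fst]
    change IsUnit (epsHom v (y : (MvPolynomial (Fin (d + 1) ⊕ Fin (n + 1)) ℂ))).fst
    rw [hψ, fst_add, fst_inl, fst_inr, add_zero, isUnit_iff_ne_zero]
    intro h
    exact nonZeroDivisors.coe_ne_zero y
      ((IsFractionRing.injective ((MvPolynomial (Fin (d + 1) ⊕ Fin (n + 1)) ℂ)) (FractionRing (MvPolynomial (Fin (d + 1) ⊕ Fin (n + 1)) ℂ))) (by rw [h, map_zero]))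
  let g : (FractionRing (MvPolynomial (Fin (d + 1) ⊕ Fin (n + 1)) ℂ)) →+* TrivSqZeroExt (FractionRing (MvPolynomial (Fin (d + 1) ⊕ Fin (n + 1)) ℂ)) (FractionRing (MvPolynomial (Fin (d + 1) ⊕ Fin (n + 1)) ℂ)) := IsLocalization.lift hu
  have hg : ∀ p : (MvPolynomial (Fin (d + 1) ⊕ Fin (n + 1)) ℂ), g (algebraMap ((MvPolynomial (Fin (d + 1) ⊕ Fin (n + 1)) ℂ)) (FractionRing (MvPolynomial (Fin (d + 1) ⊕ Fin (n + 1)) ℂ)) p) = epsHom v p :=
    fun p => IsLocalization.lift_eq hu p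
  have hgf : ∀ a, (g a).fst = a := by
    have h1 : ((fstHom (FractionRing (MvPolynomial (Fin (d + 1) ⊕ Fin (n + 1)) ℂ)) (FractionRing (MvPolynomial (Fin (d + 1) ⊕ Fin (n + 1)) ℂ)) (FractionRing (MvPolynomial (Fin (d + 1) ⊕ Fin (n + 1)) ℂ))).toRingHom.comp g) = RingHom.id (FractionRing (MvPolynomial (Fin (d + 1) ⊕ Fin (n + 1)) ℂ)) := by
      apply IsLocalization.ringHom_ext (nonZeroDivisors ((MvPolynomial (Fin (d + 1) ⊕ Fin (n + 1)) ℂ)))
      apply RingHom.ext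
      intro p
      simp only [RingHom.comp_apply, RingHom.id_apply]
      change (g (algebraMap ((MvPolynomial (Fin (d + 1) ⊕ Fin (n + 1)) ℂ)) (FractionRing (MvPolynomial (Fin (d + 1) ⊕ Fin (n + 1)) ℂ)) p)).fst = _
      rw [hg, hψ, fst_add, fst_inl, fst_inr, add_zero]
    exact fun a => DFunLike.congr_fun h1 a
  have hgk : ∀ c : ℂ, g (algebraMap ℂ (FractionRing (MvPolynomial (Fin (d + 1) ⊕ Fin (n + 1)) ℂ)) c) = inl (algebraMap ℂ (FractionRing (MvPolynomial (Fin (d + 1) ⊕ Fin (n + 1)) ℂ)) c) := by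
    intro c
    rw [IsScalarTower.algebraMap_apply ℂ ((MvPolynomial (Fin (d + 1) ⊕ Fin (n + 1)) ℂ)) (FractionRing (MvPolynomial (Fin (d + 1) ⊕ Fin (n + 1)) ℂ)), hg, hψ,
      MvPolynomial.algebraMap_eq, pderiv_C, map_zero, inr_zero, add_zero]
  refine ⟨Derivation.mk'
    { toFun := fun a => (g a).snd
      map_add' := fun a b => by rw [map_add, snd_add]
      map_smul' := fun c a => by
        rw [Algebra.smul_def, map_mul, hgk, snd_mul]
        simp [hgf, Algebra.smul_def] }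
    (fun a b => by
      simp only [LinearMap.coe_mk, AddHom.coe_mk]
      rw [map_mul, snd_mul, hgf, hgf]
      simp [mul_comm]), fun p => ?_⟩
  change (g (algebraMap ((MvPolynomial (Fin (d + 1) ⊕ Fin (n + 1)) ℂ)) (FractionRing (MvPolynomial (Fin (d + 1) ⊕ Fin (n + 1)) ℂ)) p)).snd = _
  rw [hg, hψ, snd_add, snd_inl, snd_inr, zero_add]

/-- The partial derivative on rational functions: the unique derivation of the field of rational
functions which extends the partial derivative of polynomials (`inl i`: by `t_i`, `inr j`: by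
`z_j`). -/
noncomputable def fder {d n : ℕ} (v : Fin (d + 1) ⊕ Fin (n + 1)) :
    Derivation ℂ (FractionRing (MvPolynomial (Fin (d + 1) ⊕ Fin (n + 1)) ℂ)) (FractionRing (MvPolynomial (Fin (d + 1) ⊕ Fin (n + 1)) ℂ)) := (exists_fder v).choose

theorem fder_map {d n : ℕ} (v : Fin (d + 1) ⊕ Fin (n + 1)) (p : (MvPolynomial (Fin (d + 1) ⊕ Fin (n + 1)) ℂ)) :
    fder v (algebraMap ((MvPolynomial (Fin (d + 1) ⊕ Fin (n + 1)) ℂ)) (FractionRing (MvPolynomial (Fin (d + 1) ⊕ Fin (n + 1)) ℂ)) p) = algebraMap ((MvPolynomial (Fin (d + 1) ⊕ Fin (n + 1)) ℂ)) (FractionRing (MvPolynomial (Fin (d + 1) ⊕ Fin (n + 1)) ℂ)) (pderiv v p) :=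
  (exists_fder v).choose_spec p

end Pool.Agent.Q64.EJ
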