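import Pool.Agent.Q64.EJ.Frm
import Pool.Agent.Q64.EJ.StA

/-!
Project EI (helper64), row MP_2f98db_ag: statements of the second group of lemma jobs.
-/

set_option autoImplicit false

open Finset MvPolynomial

namespace Pool.Agent.Q64.EJ

section Def

variable {d n : ℕ} (A : Matrix (Fin (d + 1)) (Fin (n + 1)) ℂ) (u : Fin (n + 1) → ℂ)

/-- `y_j = 1 / ℓ_j`. -/
noncomputable def yy (j : Fin (n + 1)) : Fld d n := (el A j)⁻¹

/-- The algebra generated by the `z_j` and the `y_j`. -/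
noncomputable def VV : Subalgebra ℂ (Fld d n) :=
  Algebra.adjoin ℂ (Set.range (zv d n) ∪ Set.range (yy A))

/-- The algebra generated by the `t_i`, the `z_j` and the `y_j`. -/
noncomputable def OO : Subalgebra ℂ (Fld d n) :=
  Algebra.adjoin ℂ (Set.range (tt d n) ∪ Set.range (zv d n) ∪ Set.range (yy A))

/-- The function `∂f/∂t_i + ∑ u_j (∂ℓ_j/∂t_i) / ℓ_j`. -/
noncomputable def oe (i : Fin (d + 1)) : Fld d n :=
  fder (Sum.inl i) (ff A) + ∑ j, u j • (fder (Sum.inl i) (el A j) / el A j)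

/-- The operator `e^(-f) ℓ^(-u) (∂/∂t_i) e^f ℓ^u`. -/
noncomputable def ne (i : Fin (d + 1)) : Module.End ℂ (Fld d n) :=
  (fder (Sum.inl i) : Derivation ℂ (Fld d n) (Fld d n)).toLinearMap +
    LinearMap.mulLeft ℂ (oe A u i)

theorem ne_apply (i : Fin (d + 1)) (g : Fld d n) :
    ne A u i g = fder (Sum.inl i) g + oe A u i * g := rfl

/-- The operator `e^(-f) (∂/∂z_j) e^f`. -/
noncomputable def de (j : Fin (n + 1)) : Module.End ℂ (Fld d n) :=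
  (fder (Sum.inr j) : Derivation ℂ (Fld d n) (Fld d n)).toLinearMap +
    LinearMap.mulLeft ℂ (fder (Sum.inr j) (ff A))

theorem de_apply (j : Fin (n + 1)) (g : Fld d n) :
    de A j g = fder (Sum.inr j) g + fder (Sum.inr j) (ff A) * g := rfl

theorem de_comm (i j : Fin (n + 1)) : de A i * de A j = de A j * de A i := by
  apply LinearMap.ext
  intro g
  simp only [Module.End.mul_apply, de_apply, map_add, Derivation.leibniz, smul_eq_mul]
  rw [fder_comm (Sum.inr i) (Sum.inr j) g, fder_comm (Sum.inr i) (Sum.inr j) (ff A)]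
  ring

theorem de_zv (i j : Fin (n + 1)) : de A i * LinearMap.mulLeft ℂ (zv d n j) =
    LinearMap.mulLeft ℂ (zv d n j) * de A i + if i = j then 1 else 0 := by
  apply LinearMap.ext
  intro g
  simp only [Module.End.mul_apply, de_apply, LinearMap.mulLeft_apply, LinearMap.add_apply,
    Derivation.leibniz, smul_eq_mul, fder_zv, Sum.inr.injEq]
  split_ifs with h
  · simp only [Module.End.one_apply]
    ring
  · simp only [LinearMap.zero_apply]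
    ring

/-- The action of the Weyl algebra twisted by `e^f`: `∂_j` acts by `∂/∂z_j + y_j`. -/
noncomputable def actE : DZ (n + 1) →ₐ[ℂ] Module.End ℂ (Fld d n) :=
  lift (fun j => LinearMap.mulLeft ℂ (zv d n j)) (de A)
    (fun i j => by
      apply LinearMap.ext
      intro g
      simp only [Module.End.mul_apply, LinearMap.mulLeft_apply]
      ring)
    (de_comm A) (de_zv A)

theorem actE_zz (j : Fin (n + 1)) : actE A (zz j) = LinearMap.mulLeft ℂ (zv d n j) :=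
  lift_zz _ _ _ _ _ j

theorem actE_dd (j : Fin (n + 1)) : actE A (dd j) = de A j := lift_dd _ _ _ _ _ j

theorem ne_actE (i : Fin (d + 1)) (Q : DZ (n + 1)) (g : Fld d n) :
    ne A u i (actE A Q g) = actE A Q (ne A u i g) := by
  revert g
  refine dz_induction (P := fun Q => ∀ g : Fld d n,
    ne A u i (actE A Q g) = actE A Q (ne A u i g)) ?_ ?_ ?_ ?_ ?_ Q
  · intro j g
    rw [actE_zz, LinearMap.mulLeft_apply, LinearMap.mulLeft_apply, ne_apply, ne_apply,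
      Derivation.leibniz, fder_zv, if_neg (by simp)]
    simp only [smul_eq_mul]
    ring
  · intro j g
    have h1 : fder (Sum.inl i) (fder (Sum.inr j) (ff A)) = fder (Sum.inr j) (oe A u i) := by
      rw [oe, map_add, fder_comm (Sum.inl i) (Sum.inr j) (ff A), map_sum]
      rw [Finset.sum_eq_zero, add_zero]
      intro k _
      rw [Derivation.map_smul, fder_el_inl, fder_div, fder_el_inr, Derivation.map_algebraMap]
      simp
    rw [actE_dd]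
    simp only [ne_apply, de_apply, map_add, Derivation.leibniz, smul_eq_mul]
    rw [fder_comm (Sum.inl i) (Sum.inr j) g, h1]
    ring
  · intro c g
    rw [AlgHom.commutes, Module.algebraMap_end_apply, Module.algebraMap_end_apply, map_smul]
  · intro a b ha hb g
    rw [map_mul, Module.End.mul_apply, Module.End.mul_apply, ha, hb]
  · intro a b ha hb g
    rw [map_add, LinearMap.add_apply, LinearMap.add_apply, map_add, ha, hb]

/-- `g` lies in `W(u) = ∑ ∇_i V + (∑ ∇_i t_i) V`. -/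
def InW (g : Fld d n) : Prop :=
  ∃ (h : Fin (d + 1) → Fld d n) (h' : Fld d n), (∀ i, h i ∈ VV A) ∧ h' ∈ VV A ∧
    g = ∑ i, ne A u i (h i + tt d n i * h')

/-- `g` lies in `∑ ∇_i O`. -/
def InK (g : Fld d n) : Prop :=
  ∃ h : Fin (d + 1) → Fld d n, (∀ i, h i ∈ OO A) ∧ g = ∑ i, ne A u i (h i)

/-- The left ideal generated by the `h(∂)`, `h` homogeneous in the ideal of `L^(-1)`. -/
noncomputable def IL : Submodule (DZ (n + 1)) (DZ (n + 1)) :=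
  Submodule.span (DZ (n + 1)) {Q | ∃ (h : MvPolynomial (Fin (n + 1)) ℂ) (k : ℕ),
    h.IsHomogeneous k ∧ VanRec A h ∧ Q = hd h}

/-- The translate `u + k e_j`. -/
def tr {n : ℕ} (u : Fin (n + 1) → ℂ) (j : Fin (n + 1)) (k : ℕ) : Fin (n + 1) → ℂ :=
  fun i => u i + if i = j then (k : ℂ) else 0

/-- The parameter can be moved by all integral translations by automorphisms fixing `A`. -/
def Mov : Prop := ∀ k : Fin (n + 1) → ℤ, ∃ σ : ℂ ≃+* ℂ, (∀ i j, σ (A i j) = A i j) ∧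
  ∀ j, σ (u j) = u j + k j

/-- The operator `E + p + ∑ u_j - f`, with `E` the Euler derivation in `t`. -/
noncomputable def lie (p : ℤ) (g : Fld d n) : Fld d n :=
  ∑ i, tt d n i * fder (Sum.inl i) g + ((p : ℂ) + ∑ j, u j) • g - ff A * g

/-- `(γ, Θ)` is a system of Gamma factor maps: `Θ_p g = γ_(m+p) g f^(m+p)` for `g` homogeneous of
degree `m`. -/
structure Theta (γ : ℤ → ℂ) (Θ : ℤ → (Fld d n →ₗ[ℂ] Fld d n)) : Prop where
  ne : ∀ M, γ M ≠ 0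
  one : γ (d + 1) = 1
  step : ∀ M : ℤ, γ (M - 1) = ((M : ℂ) + ∑ j, u j) * γ M
  hom : ∀ (p m : ℤ) (g : Fld d n), TDeg m g → Θ p g = γ (m + p) • (g * ff A ^ (m + p))

/-- The coefficients `(-1)^i η_(univ - i)` of a `d`-form. -/
noncomputable def co (η : Om A u) (i : Fin (d + 1)) : Fld d n :=
  (-1 : Fld d n) ^ (i : ℕ) * cf A u η (univ.erase i)

end Def

/-- `h` vanishes on `L^(-1)` iff `h(y) = 0` as a rational function. -/
def S_var : Prop := ∀ {d n : ℕ} (A : Matrix (Fin (d + 1)) (Fin (n + 1)) ℂ),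
  (∀ j, ∃ i, A i j ≠ 0) → ∀ h : MvPolynomial (Fin (n + 1)) ℂ, VanRec A h ↔ aeval (yy A) h = 0

/-- Homogeneous rational functions of different degrees are linearly independent. -/
def S_ind : Prop := ∀ {d n : ℕ} (c : ℤ →₀ Fld d n), (∀ q, TDeg q (c q)) →
  (c.sum fun _ x => x) = 0 → c = 0

/-- The evaluation `Q ↦ Q • 1` (for the action twisted by `e^f`): its range is `V` and its kernel
is the left ideal of `L^(-1)`. -/
def S_eva : Prop := ∀ {d n : ℕ} (A : Matrix (Fin (d + 1)) (Fin (n + 1)) ℂ),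
  (∀ j, ∃ i, A i j ≠ 0) →
  (∀ Q, actE A Q 1 ∈ VV A) ∧ (∀ g ∈ VV A, ∃ Q, actE A Q 1 = g) ∧
    ∀ Q, actE A Q 1 = 0 ↔ Q ∈ IL A

/-- The matroid hypergeometric ideal in terms of `W(u)`. -/
def S_rel : Prop := ∀ {d n : ℕ} (A : Matrix (Fin (d + 1)) (Fin (n + 1)) ℂ)
  (u : Fin (n + 1) → ℂ), (∀ j, ∃ i, A i j ≠ 0) → ∀ Q, Q ∈ HL A u ↔ InW A u (actE A Q 1)

/-- `V = y_j V + W(u)` for non-resonant `u`. -/
def S_sur : Prop := ∀ {d n : ℕ} (A : Matrix (Fin (d + 1)) (Fin (n + 1)) ℂ)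
  (u : Fin (n + 1) → ℂ), (∀ j, ∃ i, A i j ≠ 0) → NonRes u →
  ∀ (j : Fin (n + 1)), ∀ g ∈ VV A, ∃ g' ∈ VV A, InW A u (g - yy A j * g')

/-- The chain argument: multiplication by `y_j` is injective from `V/W(u + k e_j)` to
`V/W(u + (k+1) e_j)` for some `k`. -/
def S_ina : Prop := ∀ {d n : ℕ} (A : Matrix (Fin (d + 1)) (Fin (n + 1)) ℂ)
  (u : Fin (n + 1) → ℂ), (∀ j, ∃ i, A i j ≠ 0) → NonRes u → ∀ j : Fin (n + 1),
  ∃ k : ℕ, ∀ g ∈ VV A, InW A (tr u j (k + 1)) (yy A j * g) → InW A (tr u j k) g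

/-- Transport by a field automorphism. -/
def S_inb : Prop := ∀ {d n : ℕ} (A : Matrix (Fin (d + 1)) (Fin (n + 1)) ℂ)
  (u u' : Fin (n + 1) → ℂ) (σ : ℂ ≃+* ℂ), (∀ i j, σ (A i j) = A i j) → (∀ j, σ (u j) = u' j) →
  ∀ j : Fin (n + 1), (∀ g ∈ VV A, InW A (tr u' j 1) (yy A j * g) → InW A u' g) →
    ∀ g ∈ VV A, InW A (tr u j 1) (yy A j * g) → InW A u g

/-- Passage from `V` to `O`. -/
def S_onv : Prop := ∀ {d n : ℕ} (A : Matrix (Fin (d + 1)) (Fin (n + 1)) ℂ)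
  (u : Fin (n + 1) → ℂ), A.rank = d + 1 → (∀ j, ∃ i, A i j ≠ 0) → NonRes u →
  (∀ g ∈ OO A, ∃ v ∈ VV A, InK A u (g - v)) ∧ (Mov A u → ∀ g ∈ VV A, InK A u g → InW A u g)

/-- Koszul exactness of the operators `∇_i` on `O`. -/
def S_ktr : Prop := ∀ {d n : ℕ} (A : Matrix (Fin (d + 1)) (Fin (n + 1)) ℂ)
  (u : Fin (n + 1) → ℂ), A.rank = d + 1 → (∀ j, ∃ i, A i j ≠ 0) →
  ∀ g : Fin (d + 1) → Fld d n, (∀ i, g i ∈ OO A) → ∑ i, ne A u i (g i) = 0 →
  ∃ b : Fin (d + 1) → Fin (d + 1) → Fld d n, (∀ i j, b i j ∈ OO A) ∧ (∀ i j, b i j = -b j i) ∧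
    ∀ i, g i = ∑ j, ne A u j (b i j)

/-- Every element of `O` is a sum of homogeneous elements of `O`. -/
def S_grd : Prop := ∀ {d n : ℕ} (A : Matrix (Fin (d + 1)) (Fin (n + 1)) ℂ), ∀ g ∈ OO A,
  ∃ c : ℤ →₀ Fld d n, (∀ q, c q ∈ OO A ∧ TDeg q (c q)) ∧ g = c.sum fun _ x => x

/-- Existence of the Gamma factor maps. -/
def S_tha : Prop := ∀ {d n : ℕ} (A : Matrix (Fin (d + 1)) (Fin (n + 1)) ℂ)
  (u : Fin (n + 1) → ℂ), NonRes u →
  ∃ (γ : ℤ → ℂ) (Θ : ℤ → (Fld d n →ₗ[ℂ] Fld d n)), Theta A u γ Θ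

/-- First properties of the Gamma factor maps. -/
def S_thb : Prop := ∀ {d n : ℕ} (A : Matrix (Fin (d + 1)) (Fin (n + 1)) ℂ)
  (u : Fin (n + 1) → ℂ) (γ : ℤ → ℂ) (Θ : ℤ → (Fld d n →ₗ[ℂ] Fld d n)),
  (∀ j, ∃ i, A i j ≠ 0) → Theta A u γ Θ →
  (∀ (p : ℤ) (i : Fin (d + 1)), ∀ g ∈ OO A, Θ (p + 1) (ne A u i g) = nb A u i (Θ p g)) ∧
  (∀ (p : ℤ) (i : Fin (d + 1)), ∀ g ∈ OO A, Θ p (tt d n i * g) = tt d n i * Θ (p + 1) g) ∧
  (∀ (Q : DZ (n + 1)), ∀ g ∈ OO A, Θ (d + 1) (actE A Q g) = act A u Q (Θ (d + 1) g)) ∧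
  (∀ p : ℤ, ∀ g ∈ OO A, Θ p g ∈ RR A ∧ TDeg (-p) (Θ p g)) ∧
  (∀ p : ℤ, ∀ G ∈ RR A, TDeg (-p) G → ∃ g ∈ OO A, Θ p g = G)

/-- The kernel of the Gamma factor maps. -/
def S_thc : Prop := ∀ {d n : ℕ} (A : Matrix (Fin (d + 1)) (Fin (n + 1)) ℂ)
  (u : Fin (n + 1) → ℂ) (γ : ℤ → ℂ) (Θ : ℤ → (Fld d n →ₗ[ℂ] Fld d n)),
  (∀ j, ∃ i, A i j ≠ 0) → NonRes u → Theta A u γ Θ → ∀ p : ℤ,
  (∀ g ∈ OO A, Θ p g = 0 ↔ ∃ h ∈ OO A, g = lie A u p h) ∧
    (∀ h ∈ OO A, lie A u p h = 0 → h = 0)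

/-- Homotopy formulas. -/
def S_hom : Prop := ∀ {d n : ℕ} (A : Matrix (Fin (d + 1)) (Fin (n + 1)) ℂ)
  (u : Fin (n + 1) → ℂ), (∀ j, ∃ i, A i j ≠ 0) →
  (∀ h : Fld d n, ∑ i, ne A u i (tt d n i * h) = lie A u (d + 1) h) ∧
  (∀ (h : Fin (d + 1) → Fld d n) (i : Fin (d + 1)),
    lie A u d (h i) = ∑ k, ne A u k (tt d n k * h i - tt d n i * h k) +
      tt d n i * ∑ k, ne A u k (h k)) ∧
  (∀ (i j : Fin (d + 1)) (g : Fld d n), ne A u i (ne A u j g) = ne A u j (ne A u i g))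

/-- Bookkeeping of `d`-forms. -/
def S_frm : Prop := ∀ {d n : ℕ} (A : Matrix (Fin (d + 1)) (Fin (n + 1)) ℂ)
  (u : Fin (n + 1) → ℂ), (∀ j, ∃ i, A i j ≠ 0) →
  (∀ η ∈ forms A u d, nab A u η = 0 ↔ ∑ i, nb A u i (co A u η i) = 0) ∧
  (∀ η ∈ forms A u d, η ∈ exa A u ↔ ∃ b : Fin (d + 1) → Fin (d + 1) → Fld d n,
    (∀ i j, b i j ∈ RR A ∧ TDeg (1 - d) (b i j) ∧ b i j = -b j i) ∧
      ∀ i, co A u η i = ∑ j, nb A u j (b i j)) ∧
  (∀ η ∈ forms A u d, ∀ θ ∈ forms A u d, (∀ i, co A u η i = co A u θ i) → η = θ) ∧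
  fOm A u ∈ forms A u d ∧ (∀ i, co A u (fOm A u) i = tt d n i * ff A ^ (d + 1)) ∧
  (∀ (Q : DZ (n + 1)) (η : Om A u) (i : Fin (d + 1)),
    co A u (Q • η) i = act A u Q (co A u η i)) ∧
  ∀ η ∈ forms A u d, ∀ i, co A u η i ∈ RR A ∧ TDeg (-d) (co A u η i)

/-- The theorem: for generic `u` the module of the matroid hypergeometric system is isomorphic to
the twisted cohomology, with `1` corresponding to the class of `f^(d+1) Ω(t)`. -/
def S_main : Prop := ∀ {d n : ℕ} (A : Matrix (Fin (d + 1)) (Fin (n + 1)) ℂ),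
  A.rank = d + 1 → (∀ j, ∃ i, A i j ≠ 0) →
  ∃ S : Set (MvPolynomial (Fin (n + 1)) ℂ), S.Countable ∧
    (0 : MvPolynomial (Fin (n + 1)) ℂ) ∉ S ∧ ∀ u : Fin (n + 1) → ℂ, (∀ p ∈ S, eval u p ≠ 0) →
      ∃ (ψ : ML A u ≃ₗ[DZ (n + 1)] Mhyp A u) (h : fOm A u ∈ clo A u),
        ψ (gen A u) = cls A u ⟨fOm A u, h⟩

end Pool.Agent.Q64.EJ
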