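import Mathlib
import Pool.Agent.Q64.EJ.StB

/-! (written by helper224)
Project EI, job REL: the matroid hypergeometric ideal in terms of `W(u)`.
-/

set_option autoImplicit false

open Finset MvPolynomial Pool.Agent.Q64.EJ

namespace Pool.Agent.Q64.EJ.H224

section R

variable {d n : ℕ} (A : Matrix (Fin (d + 1)) (Fin (n + 1)) ℂ) (u : Fin (n + 1) → ℂ)

/-- Multiplication by a function of `t` commutes with the action. -/
theorem actE_mul {c : Fld d n} (hc : ∀ j, fder (Sum.inr j) c = 0) (Q : DZ (n + 1)) (g : Fld d n) :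
    actE A Q (c * g) = c * actE A Q g := by
  revert g
  refine dz_induction (P := fun Q => ∀ g : Fld d n,
    actE A Q (c * g) = c * actE A Q g) ?_ ?_ ?_ ?_ ?_ Q
  · intro j g
    rw [actE_zz, LinearMap.mulLeft_apply, LinearMap.mulLeft_apply]
    ring
  · intro j g
    rw [actE_dd, de_apply, de_apply, Derivation.leibniz, hc]
    simp only [smul_eq_mul, mul_zero, add_zero]
    ring
  · intro a g
    rw [AlgHom.commutes, Module.algebraMap_end_apply, Module.algebraMap_end_apply,
      mul_smul_comm]
  · intro a b ha hb g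
    rw [map_mul (actE A), Module.End.mul_apply, Module.End.mul_apply, hb, ha]
  · intro a b ha hb g
    rw [map_add, LinearMap.add_apply, LinearMap.add_apply, ha, hb, mul_add]

theorem actE_tt (i : Fin (d + 1)) (Q : DZ (n + 1)) (g : Fld d n) :
    actE A Q (tt d n i * g) = tt d n i * actE A Q g :=
  actE_mul A (fun j => by rw [fder_tt, if_neg (by simp)]) Q g

theorem fder_yy (j k : Fin (n + 1)) : fder (Sum.inr k) (yy A j) = 0 := by
  rw [yy, fder_inv, fder_el_inr]
  simp

theorem actE_yy (j : Fin (n + 1)) (Q : DZ (n + 1)) (g : Fld d n) :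
    actE A Q (yy A j * g) = yy A j * actE A Q g :=
  actE_mul A (fun k => fder_yy A j k) Q g

theorem de_one (j : Fin (n + 1)) : de A j 1 = yy A j := by
  rw [de_apply, Derivation.map_one_eq_zero, fder_ff_inr, zero_add, mul_one, yy]

theorem de_yy (j : Fin (n + 1)) : de A j (yy A j) = yy A j ^ 2 := by
  rw [de_apply, fder_yy, fder_ff_inr, zero_add, yy]
  ring

theorem actE_pop (i : Fin (d + 1)) : actE A (pop A u i) 1 = -ne A u i 1 := by
  rw [ne_apply, Derivation.map_one_eq_zero, zero_add, mul_one, oe, fder_ff_inl, pop, map_sum,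
    LinearMap.sum_apply, neg_add, neg_neg, ← Finset.sum_neg_distrib, ← Finset.sum_add_distrib]
  apply Finset.sum_congr rfl
  intro j _
  rw [map_smul, LinearMap.smul_apply, map_sub, LinearMap.sub_apply, map_mul, map_smul,
    Module.End.mul_apply, LinearMap.smul_apply, map_pow, actE_dd, actE_zz, pow_two,
    Module.End.mul_apply, de_one, de_yy, LinearMap.mulLeft_apply, fder_el_inl, yy]
  simp only [Algebra.smul_def, div_eq_mul_inv]
  ring

theorem sum_tt (hcol : ∀ j, ∃ i, A i j ≠ 0) :
    ∑ i, ne A u i (tt d n i) = -(ff A + algebraMap ℂ (Fld d n) (sp d u)) := by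
  have h1 : ∀ i, ne A u i (tt d n i) = 1 + (tt d n i * fder (Sum.inl i) (ff A) +
      ∑ j, tt d n i * (u j • (fder (Sum.inl i) (el A j) / el A j))) := by
    intro i
    rw [ne_apply, fder_tt, if_pos rfl, oe, ← Finset.mul_sum]
    ring
  have h2 : ∑ i, tt d n i * fder (Sum.inl i) (ff A) = -ff A := by
    have h := tdeg_ff A
    unfold TDeg at h
    rw [h]
    simp
  have h3 : ∀ j, ∑ i, tt d n i * (u j • (fder (Sum.inl i) (el A j) / el A j)) =
      algebraMap ℂ (Fld d n) (u j) := by
    intro j
    have h := tdeg_el A j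
    unfold TDeg at h
    have h4 : ∑ i, tt d n i * (u j • (fder (Sum.inl i) (el A j) / el A j)) =
        algebraMap ℂ (Fld d n) (u j) * ((∑ i, tt d n i * fder (Sum.inl i) (el A j)) / el A j) := by
      rw [Finset.sum_div, Finset.mul_sum]
      apply Finset.sum_congr rfl
      intro i _
      rw [Algebra.smul_def]
      ring
    rw [h4, h, Int.cast_one, one_mul, div_self (el_ne A hcol j), mul_one]
  rw [Finset.sum_congr rfl (fun i _ => h1 i), Finset.sum_add_distrib, Finset.sum_add_distrib, h2,
    Finset.sum_comm, Finset.sum_congr rfl (fun j _ => h3 j), ← map_sum]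
  simp only [Finset.sum_const, Finset.card_univ, Fintype.card_fin, sp]
  simp only [map_sub, map_neg, map_add, map_natCast, map_one, nsmul_eq_mul, mul_one, map_sum]
  push_cast
  ring

theorem actE_eul (hcol : ∀ j, ∃ i, A i j ≠ 0) :
    actE A (eul d u) 1 = -∑ i, ne A u i (tt d n i) := by
  rw [sum_tt A u hcol, neg_neg, eul, map_add, LinearMap.add_apply, map_sum, LinearMap.sum_apply,
    AlgHom.commutes, Module.algebraMap_end_apply, Algebra.smul_def, mul_one, ff]
  congr 1
  apply Finset.sum_congr rfl
  intro j _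
  rw [map_mul, Module.End.mul_apply, actE_dd, actE_zz, de_one, LinearMap.mulLeft_apply, yy,
    div_eq_mul_inv]

variable {A u}

theorem inW_add {g g' : Fld d n} (h : InW A u g) (h' : InW A u g') : InW A u (g + g') := by
  obtain ⟨a, b, h1, h2, h3⟩ := h
  obtain ⟨a', b', h1', h2', h3'⟩ := h'
  refine ⟨fun i => a i + a' i, b + b', fun i => (VV A).add_mem (h1 i) (h1' i),
    (VV A).add_mem h2 h2', ?_⟩
  rw [h3, h3', ← Finset.sum_add_distrib]
  apply Finset.sum_congr rfl
  intro i _
  rw [← map_add]
  congr 1
  ring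

theorem inW_zero : InW A u 0 := by
  refine ⟨fun _ => 0, 0, fun i => (VV A).zero_mem, (VV A).zero_mem, ?_⟩
  simp

theorem inW_neg {g : Fld d n} (h : InW A u g) : InW A u (-g) := by
  obtain ⟨a, b, h1, h2, h3⟩ := h
  refine ⟨fun i => -a i, -b, fun i => (VV A).neg_mem (h1 i), (VV A).neg_mem h2, ?_⟩
  rw [h3, ← Finset.sum_neg_distrib]
  apply Finset.sum_congr rfl
  intro i _
  rw [← map_neg]
  congr 1
  ring

theorem actE_VV (hE : S_eva) (hcol : ∀ j, ∃ i, A i j ≠ 0) (Q : DZ (n + 1)) {g : Fld d n}
    (hg : g ∈ VV A) : actE A Q g ∈ VV A := by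
  obtain ⟨Q', rfl⟩ := (hE A hcol).2.1 g hg
  have := (hE A hcol).1 (Q * Q')
  rw [map_mul, Module.End.mul_apply] at this
  exact this

theorem inW_act (hE : S_eva) (hcol : ∀ j, ∃ i, A i j ≠ 0) (Q : DZ (n + 1)) {g : Fld d n}
    (h : InW A u g) : InW A u (actE A Q g) := by
  obtain ⟨a, b, h1, h2, h3⟩ := h
  refine ⟨fun i => actE A Q (a i), actE A Q b, fun i => actE_VV hE hcol Q (h1 i),
    actE_VV hE hcol Q h2, ?_⟩
  rw [h3, map_sum]
  apply Finset.sum_congr rfl
  intro i _
  rw [← ne_actE, map_add, actE_tt]

end R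

theorem rel : S_eva → S_rel := by
  intro hE d n A u hcol Q
  have hone : (1 : Fld d n) ∈ VV A := (VV A).one_mem
  constructor
  · intro hQ
    induction hQ using Submodule.span_induction with
    | mem x hx =>
      rcases hx with (hx | ⟨i, rfl⟩) | ⟨h, k, hk, hv, rfl⟩
      · rw [Set.mem_singleton_iff] at hx
        rw [hx, actE_eul A u hcol]
        apply inW_neg
        refine ⟨fun _ => 0, 1, fun i => (VV A).zero_mem, hone, ?_⟩
        apply Finset.sum_congr rfl
        intro i _
        rw [zero_add, mul_one]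
      · rw [actE_pop A u i]
        apply inW_neg
        refine ⟨fun k => if k = i then 1 else 0, 0, ?_, (VV A).zero_mem, ?_⟩
        · intro k
          dsimp only
          split_ifs
          · exact hone
          · exact (VV A).zero_mem
        · rw [Finset.sum_eq_single i]
          · simp
          · intro k _ hk
            simp [hk]
          · intro h
            exact absurd (Finset.mem_univ i) h
      · have hIL : hd h ∈ IL A := Submodule.subset_span ⟨h, k, hk, hv, rfl⟩
        rw [((hE A hcol).2.2 _).mpr hIL]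
        exact inW_zero
    | zero =>
      rw [map_zero, LinearMap.zero_apply]
      exact inW_zero
    | add x y _ _ hx hy =>
      rw [map_add, LinearMap.add_apply]
      exact inW_add hx hy
    | smul a x _ hx =>
      rw [smul_eq_mul, map_mul, Module.End.mul_apply]
      exact inW_act hE hcol a hx
  · rintro ⟨h, h', hh, hh', he⟩
    choose q hq using fun i => (hE A hcol).2.1 (h i) (hh i)
    obtain ⟨q', hq'⟩ := (hE A hcol).2.1 h' hh'
    have hR : Q + ∑ i, q i * pop A u i + q' * eul d u ∈ IL A := by
      rw [← (hE A hcol).2.2]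
      rw [map_add, map_add, LinearMap.add_apply, LinearMap.add_apply, map_sum,
        LinearMap.sum_apply, map_mul, Module.End.mul_apply, actE_eul A u hcol, he, map_neg,
        map_sum]
      have e1 : ∀ i, (actE A (q i * pop A u i)) 1 = -ne A u i (h i) := by
        intro i
        rw [map_mul, Module.End.mul_apply, actE_pop, map_neg, ← ne_actE, hq]
      have e2 : ∀ i, (actE A q') (ne A u i (tt d n i)) = ne A u i (tt d n i * h') := by
        intro i
        have := actE_tt A i q' 1
        rw [mul_one] at this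
        rw [← ne_actE, this, hq']
      rw [Finset.sum_congr rfl (fun i _ => e1 i), Finset.sum_congr rfl (fun i _ => e2 i),
        ← Finset.sum_neg_distrib, ← Finset.sum_add_distrib, ← Finset.sum_add_distrib]
      apply Finset.sum_eq_zero
      intro i _
      rw [map_add]
      ring
    have hle : IL A ≤ HL A u := by
      apply Submodule.span_mono
      intro x hx
      exact Or.inr hx
    have h1 : ∑ i, q i * pop A u i ∈ HL A u := by
      apply Submodule.sum_mem
      intro i _
      rw [← smul_eq_mul]
      exact Submodule.smul_mem _ _ (Submodule.subset_span (Or.inl (Or.inr ⟨i, rfl⟩)))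
    have h2 : q' * eul d u ∈ HL A u := by
      rw [← smul_eq_mul]
      exact Submodule.smul_mem _ _ (Submodule.subset_span (Or.inl (Or.inl rfl)))
    have h3 := Submodule.sub_mem _ (Submodule.sub_mem _ (hle hR) h2) h1
    have e : Q + ∑ i, q i * pop A u i + q' * eul d u - q' * eul d u - ∑ i, q i * pop A u i = Q := by
      abel
    rw [e] at h3
    exact h3

end Pool.Agent.Q64.EJ.H224
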