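import Mathlib
import Pool.Agent.Q64.EJ.StB

/-! (written by helper224)
Project EI, job VAR: `h` vanishes on `L^(-1)` iff `h(y) = 0` as a rational function.
-/

set_option autoImplicit false

open Finset MvPolynomial Pool.Agent.Q64.EJ

namespace Pool.Agent.Q64.EJ.H224

section V

variable {d n : ℕ} (A : Matrix (Fin (d + 1)) (Fin (n + 1)) ℂ)

/-- The linear form as a polynomial. -/
noncomputable def elP (j : Fin (n + 1)) : Pol d n := ∑ i, C (A i j) * X (Sum.inl i)

theorem map_elP (j : Fin (n + 1)) : algebraMap (Pol d n) (Fld d n) (elP A j) = el A j := by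
  rw [elP, map_sum, el]
  apply Finset.sum_congr rfl
  intro i _
  rw [map_mul, tt, Algebra.smul_def]
  congr 1

theorem eval_elP (x : Fin (d + 1) ⊕ Fin (n + 1) → ℂ) (j : Fin (n + 1)) :
    eval x (elP A j) = ev A (fun i => x (Sum.inl i)) j := by
  rw [elP, map_sum, ev]
  apply Finset.sum_congr rfl
  intro i _
  rw [map_mul, eval_C, eval_X]

theorem clear (hcol : ∀ j, ∃ i, A i j ≠ 0) (h : MvPolynomial (Fin (n + 1)) ℂ) :
    ∃ (N : ℕ) (P : Pol d n), algebraMap (Pol d n) (Fld d n) P =
        (∏ j, el A j) ^ N * aeval (yy A) h ∧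
      ∀ x : Fin (d + 1) ⊕ Fin (n + 1) → ℂ, (∀ j, ev A (fun i => x (Sum.inl i)) j ≠ 0) →
        eval x P = (∏ j, ev A (fun i => x (Sum.inl i)) j) ^ N *
          eval (fun j => (ev A (fun i => x (Sum.inl i)) j)⁻¹) h := by
  induction h using MvPolynomial.induction_on with
  | C c =>
    refine ⟨0, C c, ?_, ?_⟩
    · rw [pow_zero, one_mul, aeval_C]
      rfl
    · intro x _
      rw [pow_zero, one_mul, eval_C, eval_C]
  | add p q hp hq =>
    obtain ⟨N1, P1, h1, e1⟩ := hp
    obtain ⟨N2, P2, h2, e2⟩ := hq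
    refine ⟨N1 + N2, (∏ j, elP A j) ^ N2 * P1 + (∏ j, elP A j) ^ N1 * P2, ?_, ?_⟩
    · rw [map_add, map_mul, map_mul, map_pow, map_pow, map_prod, h1, h2, map_add]
      simp only [map_elP]
      ring
    · intro x hx
      rw [map_add, map_mul, map_mul, map_pow, map_pow, map_prod, e1 x hx, e2 x hx, map_add]
      simp only [eval_elP]
      ring
  | mul_X p j hp =>
    obtain ⟨N, P, h1, e1⟩ := hp
    refine ⟨N + 1, P * ∏ k ∈ univ.erase j, elP A k, ?_, ?_⟩
    · rw [map_mul, map_prod, h1, map_mul, aeval_X]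
      simp only [map_elP]
      rw [pow_succ, ← Finset.mul_prod_erase univ (fun k => el A k) (Finset.mem_univ j), yy]
      have := el_ne A hcol j
      field_simp
    · intro x hx
      rw [map_mul, map_prod, e1 x hx, map_mul, eval_X]
      simp only [eval_elP]
      rw [pow_succ, ← Finset.mul_prod_erase univ
        (fun k => ev A (fun i => x (Sum.inl i)) k) (Finset.mem_univ j)]
      have := hx j
      field_simp

end V

theorem var : S_var := by
  intro d n A hcol h
  obtain ⟨N, P, h1, e1⟩ := clear A hcol h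
  have hprod : (∏ j, el A j) ≠ 0 := Finset.prod_ne_zero_iff.mpr (fun j _ => el_ne A hcol j)
  constructor
  · intro hv
    have h2 : P * ∏ j, elP A j = 0 := by
      apply MvPolynomial.funext
      intro x
      rw [map_mul, map_prod, map_zero]
      simp only [eval_elP]
      by_cases hx : ∀ j, ev A (fun i => x (Sum.inl i)) j ≠ 0
      · rw [e1 x hx, hv _ hx]
        ring
      · push Not at hx
        obtain ⟨j, hj⟩ := hx
        rw [Finset.prod_eq_zero (Finset.mem_univ j) hj, mul_zero]
    have h3 : algebraMap (Pol d n) (Fld d n) (P * ∏ j, elP A j) = 0 := by rw [h2, map_zero]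
    rw [map_mul, map_prod, h1] at h3
    simp only [map_elP] at h3
    rcases mul_eq_zero.mp h3 with h4 | h4
    · exact (mul_eq_zero.mp h4).resolve_left (pow_ne_zero _ hprod)
    · exact absurd h4 hprod
  · intro h0 t ht
    rw [h0, mul_zero] at h1
    have hP : P = 0 := IsFractionRing.injective (Pol d n) (Fld d n) (by rw [h1, map_zero])
    have h2 := e1 (Sum.elim t 0) ht
    rw [hP, map_zero] at h2
    have h3 : (∏ j, ev A (fun i => (Sum.elim t 0 : Fin (d + 1) ⊕ Fin (n + 1) → ℂ) (Sum.inl i)) j)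
        ^ N ≠ 0 := pow_ne_zero _ (Finset.prod_ne_zero_iff.mpr (fun j _ => ht j))
    exact (mul_eq_zero.mp h2.symm).resolve_left h3

end Pool.Agent.Q64.EJ.H224
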