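import Mathlib
import Pool.Agent.Q64.EJ.Rel
import Pool.Agent.Q64.EJ.Var

/-! (written by helper224)
Project EI, job EVA: the evaluation `Q ↦ Q • 1`.
-/

set_option autoImplicit false

open Finset MvPolynomial Pool.Agent.Q64.EJ

namespace Pool.Agent.Q64.EJ.H224

section E

variable {d n : ℕ} (A : Matrix (Fin (d + 1)) (Fin (n + 1)) ℂ)

theorem zv_mem (j : Fin (n + 1)) : zv d n j ∈ VV A := Algebra.subset_adjoin (Or.inl ⟨j, rfl⟩)

theorem yy_mem (j : Fin (n + 1)) : yy A j ∈ VV A := Algebra.subset_adjoin (Or.inr ⟨j, rfl⟩)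

theorem fder_VV (k : Fin (n + 1)) {g : Fld d n} (hg : g ∈ VV A) :
    fder (Sum.inr k) g ∈ VV A := by
  unfold VV at hg
  induction hg using Algebra.adjoin_induction with
  | mem x hx =>
    rcases hx with ⟨j, rfl⟩ | ⟨j, rfl⟩
    · rw [fder_zv]
      split_ifs
      · exact (VV A).one_mem
      · exact (VV A).zero_mem
    · rw [fder_yy]
      exact (VV A).zero_mem
  | algebraMap c =>
    rw [Derivation.map_algebraMap]
    exact (VV A).zero_mem
  | add x y _ _ hx hy =>
    rw [map_add]
    exact (VV A).add_mem hx hy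
  | mul x y hx0 hy0 hx hy =>
    rw [Derivation.leibniz, smul_eq_mul, smul_eq_mul]
    exact (VV A).add_mem ((VV A).mul_mem hx0 hy) ((VV A).mul_mem hy0 hx)

theorem actE_mem (Q : DZ (n + 1)) (g : Fld d n) (hg : g ∈ VV A) : actE A Q g ∈ VV A := by
  revert g
  refine dz_induction (P := fun Q => ∀ g : Fld d n, g ∈ VV A → actE A Q g ∈ VV A) ?_ ?_ ?_ ?_ ?_ Q
  · intro j g hg
    rw [actE_zz, LinearMap.mulLeft_apply]
    exact (VV A).mul_mem (zv_mem A j) hg
  · intro j g hg
    rw [actE_dd, de_apply, fder_ff_inr]
    exact (VV A).add_mem (fder_VV A j hg) ((VV A).mul_mem (yy_mem A j) hg)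
  · intro a g hg
    rw [AlgHom.commutes, Module.algebraMap_end_apply]
    exact (VV A).smul_mem hg a
  · intro a b ha hb g hg
    rw [map_mul (actE A), Module.End.mul_apply]
    exact ha _ (hb _ hg)
  · intro a b ha hb g hg
    rw [map_add, LinearMap.add_apply]
    exact (VV A).add_mem (ha _ hg) (hb _ hg)

theorem actE_onto (g : Fld d n) (hg : g ∈ VV A) : ∃ Q, actE A Q 1 = g := by
  rw [VV, ← Set.Sum.elim_range, Algebra.adjoin_range_eq_range_aeval] at hg
  obtain ⟨p, rfl⟩ := hg
  show ∃ Q, actE A Q 1 = aeval (Sum.elim (zv d n) (yy A)) p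
  induction p using MvPolynomial.induction_on with
  | C c =>
    refine ⟨algebraMap ℂ _ c, ?_⟩
    rw [AlgHom.commutes, Module.algebraMap_end_apply, aeval_C, Algebra.smul_def, mul_one]
  | add p q hp hq =>
    obtain ⟨Q1, h1⟩ := hp
    obtain ⟨Q2, h2⟩ := hq
    exact ⟨Q1 + Q2, by rw [map_add, LinearMap.add_apply, h1, h2, map_add]⟩
  | mul_X p j hp =>
    obtain ⟨Q, h1⟩ := hp
    rcases j with j | j
    · refine ⟨zz j * Q, ?_⟩
      rw [map_mul (actE A), Module.End.mul_apply, h1, actE_zz, LinearMap.mulLeft_apply, map_mul,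
        aeval_X, Sum.elim_inl, mul_comm]
    · refine ⟨Q * dd j, ?_⟩
      have h5 := actE_yy A j Q 1
      rw [mul_one] at h5
      rw [map_mul (actE A), Module.End.mul_apply, actE_dd, de_one, h5, h1, map_mul,
        aeval_X, Sum.elim_inr, mul_comm]

theorem clear2 (hcol : ∀ j, ∃ i, A i j ≠ 0)
    (h : MvPolynomial (Fin (n + 1) ⊕ Fin (n + 1)) ℂ) :
    ∃ (N : ℕ) (P : Pol d n), algebraMap (Pol d n) (Fld d n) P =
        (∏ j, el A j) ^ N * aeval (Sum.elim (zv d n) (yy A)) h ∧
      ∀ x : Fin (d + 1) ⊕ Fin (n + 1) → ℂ, (∀ j, ev A (fun i => x (Sum.inl i)) j ≠ 0) →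
        eval x P = (∏ j, ev A (fun i => x (Sum.inl i)) j) ^ N *
          eval (Sum.elim (fun j => x (Sum.inr j))
            (fun j => (ev A (fun i => x (Sum.inl i)) j)⁻¹)) h := by
  induction h using MvPolynomial.induction_on with
  | C c =>
    refine ⟨0, C c, ?_, ?_⟩
    · rw [pow_zero, one_mul, aeval_C]
      rfl
    · intro x _
      rw [pow_zero, one_mul, eval_C, eval_C]
  | add p q hp hq =>
    obtain ⟨N1, P1, h1, e1⟩ := hp
    obtain ⟨N2, P2, h2, e2⟩ := hq
    refine ⟨N1 + N2, (∏ j, elP A j) ^ N2 * P1 + (∏ j, elP A j) ^ N1 * P2, ?_, ?_⟩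
    · rw [map_add, map_mul, map_mul, map_pow, map_pow, map_prod, h1, h2, map_add]
      simp only [map_elP]
      ring
    · intro x hx
      rw [map_add, map_mul, map_mul, map_pow, map_pow, map_prod, e1 x hx, e2 x hx, map_add]
      simp only [eval_elP]
      ring
  | mul_X p j hp =>
    obtain ⟨N, P, h1, e1⟩ := hp
    rcases j with j | j
    · refine ⟨N, P * X (Sum.inr j), ?_, ?_⟩
      · rw [map_mul, h1, map_mul, aeval_X, Sum.elim_inl, zv, mul_assoc]
      · intro x hx
        rw [map_mul, e1 x hx, map_mul, eval_X, eval_X, Sum.elim_inl, mul_assoc]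
    · refine ⟨N + 1, P * ∏ k ∈ univ.erase j, elP A k, ?_, ?_⟩
      · rw [map_mul, map_prod, h1, map_mul, aeval_X, Sum.elim_inr]
        simp only [map_elP]
        rw [pow_succ, ← Finset.mul_prod_erase univ (fun k => el A k) (Finset.mem_univ j), yy]
        have := el_ne A hcol j
        field_simp
      · intro x hx
        rw [map_mul, map_prod, e1 x hx, map_mul, eval_X, Sum.elim_inr]
        simp only [eval_elP]
        rw [pow_succ, ← Finset.mul_prod_erase univ
          (fun k => ev A (fun i => x (Sum.inl i)) k) (Finset.mem_univ j)]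
        have := hx j
        field_simp

theorem eval_hom {m k : ℕ} {h : MvPolynomial (Fin m) ℂ} (hk : h.IsHomogeneous k) (μ : ℂ)
    (y : Fin m → ℂ) : eval (fun j => μ * y j) h = μ ^ k * eval y h := by
  rw [eval_eq', eval_eq', Finset.mul_sum]
  apply Finset.sum_congr rfl
  intro b hb
  have h1 : ∑ i, b i = k := by
    have h2 := hk (mem_support_iff.mp hb)
    rw [← h2]
    simp [Finsupp.weight_apply, Finsupp.sum_fintype]
  simp only [mul_pow, Finset.prod_mul_distrib]
  rw [Finset.prod_pow_eq_pow_sum, h1]
  ring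

theorem van_hom {h : MvPolynomial (Fin (n + 1)) ℂ} (hv : VanRec A h) (k : ℕ) :
    VanRec A (homogeneousComponent k h) := by
  intro t ht
  set y : Fin (n + 1) → ℂ := fun j => (ev A t j)⁻¹ with hy
  let p : Polynomial ℂ := ∑ i ∈ Finset.range (h.totalDegree + 1),
    Polynomial.monomial i (eval y (homogeneousComponent i h))
  have hp : ∀ μ : ℂ, μ ≠ 0 → p.eval μ = 0 := by
    intro μ hμ
    have h1 : eval (fun j => μ * y j) h = 0 := by
      have h2 := hv (fun i => μ⁻¹ * t i) (fun j => by
        have : ev A (fun i => μ⁻¹ * t i) j = μ⁻¹ * ev A t j := by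
          rw [ev, ev, Finset.mul_sum]
          exact Finset.sum_congr rfl (fun i _ => by ring)
        rw [this]
        exact mul_ne_zero (inv_ne_zero hμ) (ht j))
      have h3 : (fun j => (ev A (fun i => μ⁻¹ * t i) j)⁻¹) = fun j => μ * y j := by
        funext j
        have : ev A (fun i => μ⁻¹ * t i) j = μ⁻¹ * ev A t j := by
          rw [ev, ev, Finset.mul_sum]
          exact Finset.sum_congr rfl (fun i _ => by ring)
        rw [this, mul_inv, inv_inv]
      rw [h3] at h2
      exact h2
    rw [Polynomial.eval_finsetSum]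
    rw [← sum_homogeneousComponent h, map_sum] at h1
    rw [← h1]
    apply Finset.sum_congr rfl
    intro i _
    rw [Polynomial.eval_monomial, eval_hom (homogeneousComponent_isHomogeneous i h), mul_comm]
  have hp0 : p = 0 := by
    apply Polynomial.eq_zero_of_infinite_isRoot
    apply Set.Infinite.mono (s := {μ : ℂ | μ ≠ 0})
    · intro μ hμ
      exact hp μ hμ
    · have : {μ : ℂ | μ ≠ 0} = ({0} : Set ℂ)ᶜ := by ext; simp
      rw [this]
      exact (Set.finite_singleton 0).infinite_compl
  by_cases hk : k < h.totalDegree + 1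
  · have h2 : p.coeff k = eval y (homogeneousComponent k h) := by
      rw [Polynomial.finsetSum_coeff, Finset.sum_eq_single k]
      · rw [Polynomial.coeff_monomial, if_pos rfl]
      · intro b _ hb
        rw [Polynomial.coeff_monomial, if_neg hb]
      · intro hk2
        exact absurd (Finset.mem_range.mpr hk) hk2
    rw [← h2, hp0, Polynomial.coeff_zero]
  · rw [homogeneousComponent_eq_zero _ _ (by omega), map_zero]

end E

theorem eva : S_pbw → S_var → S_ind → S_eva := by
  intro hP hV _ d n A hcol
  obtain ⟨φ, ψ, h1, h2, h3, h4⟩ := hP (n + 1)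
  have hφ : ∀ h, actE A (φ h) 1 = aeval (yy A) h := by
    intro h
    induction h using MvPolynomial.induction_on with
    | C c =>
      have : φ (C c) = algebraMap ℂ _ c := φ.commutes c
      rw [this, AlgHom.commutes, Module.algebraMap_end_apply, aeval_C, Algebra.smul_def, mul_one]
    | add p q hp hq => rw [map_add, map_add, LinearMap.add_apply, hp, hq, map_add]
    | mul_X p j hp =>
      have h5 := actE_yy A j (φ p) 1
      rw [mul_one] at h5
      rw [map_mul, map_mul (actE A), Module.End.mul_apply, h2, actE_dd, de_one, h5, hp, map_mul,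
        aeval_X, mul_comm]
  have hψ : ∀ p g, actE A (ψ p) g = aeval (zv d n) p * g := by
    intro p
    induction p using MvPolynomial.induction_on with
    | C c =>
      intro g
      have : ψ (C c) = algebraMap ℂ _ c := ψ.commutes c
      rw [this, AlgHom.commutes, Module.algebraMap_end_apply, aeval_C, Algebra.smul_def]
    | add p q hp hq =>
      intro g
      rw [map_add, map_add, LinearMap.add_apply, hp, hq, map_add, add_mul]
    | mul_X p j hp =>
      intro g
      rw [map_mul, map_mul (actE A), Module.End.mul_apply, h3, actE_zz, LinearMap.mulLeft_apply,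
        hp, map_mul, aeval_X]
      ring
  refine ⟨fun Q => actE_mem A Q 1 (VV A).one_mem, actE_onto A, fun Q => ⟨?_, ?_⟩⟩
  · intro hQ
    obtain ⟨c, rfl⟩ := h4 Q
    have e1 : actE A (c.sum fun a h => ψ (monomial a 1) * φ h) 1 =
        aeval (Sum.elim (zv d n) (yy A))
          (c.sum fun a h => rename Sum.inl (monomial a (1 : ℂ)) * rename Sum.inr h) := by
      rw [Finsupp.sum, Finsupp.sum, map_sum, LinearMap.sum_apply, map_sum]
      apply Finset.sum_congr rfl
      intro a _
      rw [map_mul (actE A), Module.End.mul_apply, hφ, hψ, map_mul, aeval_rename, aeval_rename]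
      rfl
    rw [e1] at hQ
    obtain ⟨N, P, hP1, hP2⟩ := clear2 A hcol
      (c.sum fun a h => rename Sum.inl (monomial a (1 : ℂ)) * rename Sum.inr h)
    rw [hQ, mul_zero] at hP1
    have hP0 : P = 0 := IsFractionRing.injective (Pol d n) (Fld d n) (by rw [hP1, map_zero])
    have hvan : ∀ a, VanRec A (c a) := by
      intro a t ht
      let G : MvPolynomial (Fin (n + 1)) ℂ :=
        c.sum fun b h => monomial b (eval (fun j => (ev A t j)⁻¹) h)
      have hG : G = 0 := by
        apply MvPolynomial.funext
        intro z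
        have h5 := hP2 (Sum.elim t z) ht
        rw [hP0, map_zero] at h5
        have h6 : (∏ j, ev A (fun i => (Sum.elim t z : Fin (d + 1) ⊕ Fin (n + 1) → ℂ)
            (Sum.inl i)) j) ^ N ≠ 0 :=
          pow_ne_zero _ (Finset.prod_ne_zero_iff.mpr (fun j _ => ht j))
        have h7 := (mul_eq_zero.mp h5.symm).resolve_left h6
        rw [map_zero]
        rw [← h7, Finsupp.sum, map_sum]
        show eval z (c.sum fun b h => monomial b (eval (fun j => (ev A t j)⁻¹) h)) = _
        rw [Finsupp.sum, map_sum]
        apply Finset.sum_congr rfl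
        intro b _
        rw [map_mul, eval_rename, eval_rename, eval_monomial, eval_monomial, one_mul]
        rw [mul_comm]
        rfl
      have h8 : coeff a G = eval (fun j => (ev A t j)⁻¹) (c a) := by
        show coeff a (c.sum fun b h => monomial b (eval (fun j => (ev A t j)⁻¹) h)) = _
        rw [Finsupp.sum, coeff_sum]
        by_cases ha : a ∈ c.support
        · rw [Finset.sum_eq_single a]
          · rw [coeff_monomial, if_pos rfl]
          · intro b _ hb
            rw [coeff_monomial, if_neg hb]
          · intro h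
            exact absurd ha h
        · rw [Finset.sum_eq_zero]
          · rw [Finsupp.notMem_support_iff.mp ha, map_zero]
          · intro b hb
            rw [coeff_monomial, if_neg]
            intro h
            exact ha (h ▸ hb)
      rw [← h8, hG, coeff_zero]
    apply Submodule.sum_mem
    intro a _
    show ψ (monomial a 1) * φ (c a) ∈ IL A
    rw [← smul_eq_mul]
    apply Submodule.smul_mem
    rw [← sum_homogeneousComponent (c a), map_sum]
    apply Submodule.sum_mem
    intro k _
    exact Submodule.subset_span ⟨_, k, homogeneousComponent_isHomogeneous k (c a),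
      van_hom A (hvan a) k, h1 _⟩
  · intro hQ
    induction hQ using Submodule.span_induction with
    | mem x hx =>
      obtain ⟨h, k, _, hv, rfl⟩ := hx
      rw [← h1, hφ]
      exact (hV A hcol h).mp hv
    | zero => rw [map_zero, LinearMap.zero_apply]
    | add x y _ _ hx hy => rw [map_add, LinearMap.add_apply, hx, hy, add_zero]
    | smul a x _ hx => rw [smul_eq_mul, map_mul (actE A), Module.End.mul_apply, hx, map_zero]

end Pool.Agent.Q64.EJ.H224
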