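import Pool.Agent.Q64.EJ.StB

/-!
Project EI (helper64), row MP_2f98db_ag: bookkeeping of `d`-forms (job FRM).
-/

set_option autoImplicit false

open Finset MvPolynomial

namespace Pool.Agent.Q64.EJ.FrmJ

open Pool.Agent.Q64.EJ

theorem card_lt {d : ℕ} (i : Fin (d + 1)) : #{k ∈ (univ : Finset (Fin (d + 1))) | k < i} = (i : ℕ) := by
  have : ({k ∈ (univ : Finset (Fin (d + 1))) | k < i}) = Finset.Iio i := by
    ext k
    simp
  rw [this, Fin.card_Iio]

theorem card_lt_erase {d : ℕ} (i j : Fin (d + 1)) :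
    #{k ∈ (univ : Finset (Fin (d + 1))).erase i | k < j} = if i < j then (j : ℕ) - 1 else j := by
  have h1 : ({k ∈ (univ : Finset (Fin (d + 1))).erase i | k < j}) =
      ({k ∈ (univ : Finset (Fin (d + 1))) | k < j}).erase i := by
    ext k
    simp only [mem_filter, mem_erase, mem_univ, and_true, true_and]
  rw [h1]
  split_ifs with h
  · rw [card_erase_of_mem (by simp [h]), card_lt]
  · rw [erase_eq_of_notMem (by simp only [mem_filter, mem_univ, true_and]; exact h), card_lt]

/-- The exponent of the sign of the pair `i ≠ j`. -/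
def sg {d : ℕ} (i j : Fin (d + 1)) : ℕ := i + #{k ∈ (univ : Finset (Fin (d + 1))).erase i | k < j}

theorem sg_symm {R : Type} [Ring R] {d : ℕ} {i j : Fin (d + 1)} (h : i ≠ j) :
    (-1 : R) ^ sg i j = -(-1 : R) ^ sg j i := by
  have key : ∀ a b : Fin (d + 1), a < b → (-1 : R) ^ sg a b = -(-1 : R) ^ sg b a := by
    intro a b hab
    have h1 : sg a b + 1 = sg b a := by
      rw [sg, sg, card_lt_erase, card_lt_erase, if_pos hab, if_neg (not_lt.2 hab.le)]
      have : (a : ℕ) < b := hab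
      omega
    rw [← h1, pow_succ]
    simp
  rcases lt_or_gt_of_ne h with hlt | hlt
  · exact key i j hlt
  · rw [key j i hlt, neg_neg]

/-- The index set of the pair `i, j`. -/
def pr {d : ℕ} (i j : Fin (d + 1)) : Finset (Fin (d + 1)) := (univ.erase i).erase j

theorem pr_comm {d : ℕ} (i j : Fin (d + 1)) : pr i j = pr j i := erase_right_comm

theorem mem_pr {d : ℕ} {i j k : Fin (d + 1)} : k ∉ pr i j ↔ k = i ∨ k = j := by
  rw [pr, mem_erase, mem_erase]
  simp only [mem_univ, and_true]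
  tauto

theorem pr_inj {d : ℕ} {i j i' j' : Fin (d + 1)} (h : i < j) (h' : i' < j')
    (e : pr i j = pr i' j') : i = i' ∧ j = j' := by
  have h1 : i = i' ∨ i = j' := by rw [← mem_pr, ← e, mem_pr]; exact Or.inl rfl
  have h2 : j = i' ∨ j = j' := by rw [← mem_pr, ← e, mem_pr]; exact Or.inr rfl
  have h3 : i' = i ∨ i' = j := by rw [← mem_pr, e, mem_pr]; exact Or.inl rfl
  rcases h1 with h1 | h1
  · rcases h2 with h2 | h2
    · rw [h1, h2] at h
      exact absurd h (lt_irrefl _)
    · exact ⟨h1, h2⟩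
  · rcases h3 with h3 | h3
    · rw [h3, h1] at h'
      exact absurd h' (lt_irrefl _)
    · rw [h1, ← h3] at h
      exact absurd h (not_lt.2 h'.le)

theorem card_pr {d : ℕ} {i j : Fin (d + 1)} (h : i ≠ j) : ((pr i j).card : ℤ) = d - 1 := by
  have h1 : (pr i j).card = d + 1 - 1 - 1 := by
    rw [pr, card_erase_of_mem (mem_erase.2 ⟨h.symm, mem_univ j⟩), card_erase_of_mem (mem_univ i),
      card_univ, Fintype.card_fin]
  have hi := i.isLt
  have hj := j.isLt
  have h2 : (i : ℕ) ≠ j := fun e => h (Fin.ext e)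
  rw [h1]
  omega

section

variable {d n : ℕ} (A : Matrix (Fin (d + 1)) (Fin (n + 1)) ℂ) (u : Fin (n + 1) → ℂ)

theorem sgn_rr {x : Fld d n} (a : ℕ) (hx : x ∈ RR A) : (-1 : Fld d n) ^ a * x ∈ RR A :=
  (RR A).mul_mem ((RR A).pow_mem ((RR A).neg_mem (RR A).one_mem) a) hx

theorem sgn_tdeg {q : ℤ} {x : Fld d n} (a : ℕ) (hx : TDeg q x) :
    TDeg q ((-1 : Fld d n) ^ a * x) := by
  rcases neg_one_pow_eq_or (Fld d n) a with h | h
  · rw [h, one_mul]
    exact hx
  · rw [h]
    have := tdeg_smul (-1) hx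
    rwa [neg_one_smul, ← neg_one_mul] at this

theorem nb_sgn (i : Fin (d + 1)) (a : ℕ) (x : Fld d n) :
    nb A u i ((-1 : Fld d n) ^ a * x) = (-1 : Fld d n) ^ a * nb A u i x := by
  rcases neg_one_pow_eq_or (Fld d n) a with h | h
  · rw [h, one_mul, one_mul]
  · rw [h, neg_one_mul, neg_one_mul, map_neg]

theorem nab_apply (η : Om A u) (J : Finset (Fin (d + 1))) :
    cf A u (nab A u η) J = ∑ i ∈ J, (-1 : Fld d n) ^ #{k ∈ J | k < i} *
      nb A u i (cf A u η (J.erase i)) := rfl

theorem nab_forms {q : ℤ} {ρ : Om A u} (hρ : ρ ∈ forms A u q) :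
    nab A u ρ ∈ forms A u (q + 1) := by
  intro J
  refine ⟨fun hJ => ?_, ?_, ?_⟩
  · change cf A u (nab A u ρ) J = 0
    rw [nab_apply]
    refine Finset.sum_eq_zero fun i hi => ?_
    have h1 : ρ (J.erase i) = 0 := by
      apply (hρ (J.erase i)).1
      rw [card_erase_of_mem hi]
      have : 0 < J.card := card_pos.2 ⟨i, hi⟩
      omega
    have h2 : cf A u ρ (J.erase i) = 0 := h1
    rw [h2, map_zero, mul_zero]
  · rw [nab_apply]
    exact (RR A).sum_mem fun i _ => sgn_rr A _ (nb_mem A u i (hρ _).2.1)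
  · rw [nab_apply]
    refine tdeg_sum _ _ fun i _ => sgn_tdeg _ ?_
    have := tdeg_nb A u (hρ (J.erase i)).2.2 i
    have e : -q - 1 = -(q + 1) := by ring
    rwa [e] at this

theorem nab_univ (η : Om A u) :
    cf A u (nab A u η) univ = ∑ i, nb A u i (co A u η i) := by
  rw [nab_apply]
  refine Finset.sum_congr rfl fun i _ => ?_
  rw [card_lt, co, nb_sgn]

theorem nab_zero_iff (η : Om A u) (hη : η ∈ forms A u d) :
    nab A u η = 0 ↔ ∑ i, nb A u i (co A u η i) = 0 := by
  rw [← nab_univ]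
  constructor
  · intro h
    rw [h]
    rfl
  · intro h
    funext J
    by_cases hJ : J = univ
    · rw [hJ]
      exact h
    · have h1 := nab_forms A u hη
      apply (h1 J).1
      intro h2
      apply hJ
      rw [← Finset.card_eq_iff_eq_univ, Fintype.card_fin]
      exact_mod_cast h2

theorem uniq (η : Om A u) (hη : η ∈ forms A u d) (θ : Om A u) (hθ : θ ∈ forms A u d)
    (h : ∀ i, co A u η i = co A u θ i) : η = θ := by
  funext J
  by_cases hJ : ∃ i, J = univ.erase i
  · obtain ⟨i, rfl⟩ := hJ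
    have h1 := h i
    rw [co, co] at h1
    change cf A u η (univ.erase i) = cf A u θ (univ.erase i)
    have h0 : (-1 : Fld d n) ^ (i : ℕ) ≠ 0 := pow_ne_zero _ (neg_ne_zero.2 one_ne_zero)
    exact mul_left_cancel₀ h0 h1
  · have h2 : (J.card : ℤ) ≠ d := by
      intro h3
      apply hJ
      have h4 : (Jᶜ).card = 1 := by
        rw [card_compl, Fintype.card_fin]
        omega
      obtain ⟨i, hi⟩ := card_eq_one.1 h4
      refine ⟨i, ?_⟩
      rw [← compl_compl J, hi]
      ext k
      simp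
    exact ((hη J).1 h2).trans ((hθ J).1 h2).symm

theorem co_nab (ρ : Om A u) (i : Fin (d + 1)) :
    co A u (nab A u ρ) i = ∑ j, nb A u j
      (if i = j then 0 else (-1 : Fld d n) ^ sg i j * cf A u ρ (pr i j)) := by
  rw [co, nab_apply, Finset.mul_sum, ← Finset.sum_erase_add univ _ (Finset.mem_univ i),
    if_pos rfl, map_zero, add_zero]
  refine Finset.sum_congr rfl fun j hj => ?_
  rw [if_neg (Ne.symm (Finset.ne_of_mem_erase hj)), nb_sgn, ← mul_assoc, sg, pow_add]
  rfl

theorem exact_iff (η : Om A u) (hη : η ∈ forms A u d) :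
    η ∈ exa A u ↔ ∃ b : Fin (d + 1) → Fin (d + 1) → Fld d n,
      (∀ i j, b i j ∈ RR A ∧ TDeg (1 - d) (b i j) ∧ b i j = -b j i) ∧
        ∀ i, co A u η i = ∑ j, nb A u j (b i j) := by
  classical
  constructor
  · rintro ⟨ρ, hρ, rfl⟩
    refine ⟨fun i j => if i = j then 0 else
      (-1 : Fld d n) ^ sg i j * cf A u ρ (pr i j), fun i j => ?_, co_nab A u ρ⟩
    change (if i = j then 0 else (-1 : Fld d n) ^ sg i j * cf A u ρ (pr i j)) ∈ RR A ∧
      TDeg (1 - d) (if i = j then 0 else
        (-1 : Fld d n) ^ sg i j * cf A u ρ (pr i j)) ∧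
      (if i = j then 0 else (-1 : Fld d n) ^ sg i j * cf A u ρ (pr i j)) =
        -(if j = i then 0 else (-1 : Fld d n) ^ sg j i * cf A u ρ (pr j i))
    by_cases hij : i = j
    · rw [if_pos hij, if_pos hij.symm]
      exact ⟨(RR A).zero_mem, tdeg_zero _, by rw [neg_zero]⟩
    · rw [if_neg hij, if_neg (Ne.symm hij)]
      refine ⟨sgn_rr A _ (hρ _).2.1, ?_, ?_⟩
      · have := sgn_tdeg (sg i j) (hρ (pr i j)).2.2
        have e : -((d : ℤ) - 1) = 1 - d := by ring
        rwa [e] at this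
      · rw [sg_symm hij, pr_comm i j, neg_mul]
  · rintro ⟨b, hb, hbe⟩
    let ρ : Om A u := fun I => if h : ∃ p : Fin (d + 1) × Fin (d + 1), p.1 < p.2 ∧ I = pr p.1 p.2
      then (show Fm A u from (-1 : Fld d n) ^ sg h.choose.1 h.choose.2 * b h.choose.1 h.choose.2)
      else 0
    have hρ1 : ∀ i j : Fin (d + 1), i < j →
        cf A u ρ (pr i j) = (-1 : Fld d n) ^ sg i j * b i j := by
      intro i j hij
      have h : ∃ p : Fin (d + 1) × Fin (d + 1), p.1 < p.2 ∧ pr i j = pr p.1 p.2 :=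
        ⟨(i, j), hij, rfl⟩
      have h1 := pr_inj hij h.choose_spec.1 h.choose_spec.2
      change (if h : ∃ p : Fin (d + 1) × Fin (d + 1), p.1 < p.2 ∧ pr i j = pr p.1 p.2
        then (show Fm A u from (-1 : Fld d n) ^ sg h.choose.1 h.choose.2 * b h.choose.1 h.choose.2)
        else 0) = _
      rw [dif_pos h, ← h1.1, ← h1.2]
    have hρ0 : ∀ I, (¬ ∃ p : Fin (d + 1) × Fin (d + 1), p.1 < p.2 ∧ I = pr p.1 p.2) →
        cf A u ρ I = 0 := fun I hI => dif_neg hI
    have hρf : ρ ∈ forms A u (d - 1) := by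
      intro I
      by_cases hI : ∃ p : Fin (d + 1) × Fin (d + 1), p.1 < p.2 ∧ I = pr p.1 p.2
      · obtain ⟨⟨i, j⟩, hij, rfl⟩ := hI
        refine ⟨fun h => absurd (card_pr (ne_of_lt hij)) h, ?_, ?_⟩
        · rw [hρ1 i j hij]
          exact sgn_rr A _ (hb i j).1
        · rw [hρ1 i j hij]
          have := sgn_tdeg (sg i j) (hb i j).2.1
          have e : -((d : ℤ) - 1) = 1 - d := by ring
          rw [e]
          exact this
      · rw [hρ0 I hI]
        exact ⟨fun _ => rfl, (RR A).zero_mem, tdeg_zero _⟩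
    have hbb : ∀ i j : Fin (d + 1), (if i = j then 0 else
        (-1 : Fld d n) ^ sg i j * cf A u ρ (pr i j)) = b i j := by
      have h1 : ∀ i j : Fin (d + 1), i < j →
          (-1 : Fld d n) ^ sg i j * cf A u ρ (pr i j) = b i j := by
        intro i j hij
        rw [hρ1 i j hij, ← mul_assoc, ← pow_add, Even.neg_one_pow ⟨_, rfl⟩, one_mul]
      intro i j
      rcases lt_trichotomy i j with hij | hij | hij
      · rw [if_neg (ne_of_lt hij), h1 i j hij]
      · subst hij
        rw [if_pos rfl]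
        have h2 := (hb i i).2.2
        have h3 : (2 : Fld d n) * b i i = 0 := by linear_combination h2
        exact ((mul_eq_zero.1 h3).resolve_left two_ne_zero).symm
      · rw [if_neg (ne_of_gt hij), sg_symm (ne_of_gt hij), pr_comm i j, neg_mul, h1 j i hij,
          (hb i j).2.2]
    refine ⟨ρ, hρf, ?_⟩
    refine uniq A u _ ?_ η hη fun i => ?_
    · have := nab_forms A u hρf
      rwa [sub_add_cancel] at this
    · rw [co_nab, hbe i]
      exact Finset.sum_congr rfl fun j _ => by rw [hbb]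

theorem co_fOm (i : Fin (d + 1)) : co A u (fOm A u) i = tt d n i * ff A ^ (d + 1) := by
  have h1 : cf A u (fOm A u) (univ.erase i) =
      (-1 : Fld d n) ^ (i : ℕ) * tt d n i * ff A ^ (d + 1) := by
    change ∑ k : Fin (d + 1), (if (univ : Finset (Fin (d + 1))).erase i = univ.erase k then
      (-1 : Fld d n) ^ (k : ℕ) * tt d n k * ff A ^ (d + 1) else 0) = _
    rw [Finset.sum_eq_single i]
    · rw [if_pos rfl]
    · intro k _ hk
      rw [if_neg]
      intro h
      have h2 : k ∉ (univ : Finset (Fin (d + 1))).erase i := by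
        rw [h]
        simp
      simp only [mem_erase, mem_univ, and_true, not_not] at h2
      exact hk h2
    · intro h
      exact absurd (mem_univ i) h
  rw [co, h1, mul_assoc, ← mul_assoc, ← pow_add, Even.neg_one_pow ⟨_, rfl⟩, one_mul]

theorem fOm_mem : fOm A u ∈ forms A u d := by
  intro I
  have h1 : cf A u (fOm A u) I = ∑ k : Fin (d + 1),
      (if I = univ.erase k then (-1 : Fld d n) ^ (k : ℕ) * tt d n k * ff A ^ (d + 1) else 0) := rfl
  refine ⟨fun hI => ?_, ?_, ?_⟩
  · change cf A u (fOm A u) I = 0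
    rw [h1]
    refine Finset.sum_eq_zero fun k _ => if_neg ?_
    rintro rfl
    apply hI
    rw [card_erase_of_mem (mem_univ k), card_univ, Fintype.card_fin]
    rfl
  · rw [h1]
    refine (RR A).sum_mem fun k _ => ?_
    split_ifs
    · rw [mul_assoc]
      exact sgn_rr A _ ((RR A).mul_mem (Pool.Agent.Q64.EJ.tt_mem A k)
        ((RR A).pow_mem (Pool.Agent.Q64.EJ.ff_mem A) _))
    · exact (RR A).zero_mem
  · rw [h1]
    refine tdeg_sum _ _ fun k _ => ?_
    split_ifs
    · rw [mul_assoc]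
      apply sgn_tdeg
      have h2 : ∀ m : ℕ, TDeg (-(m : ℤ)) (ff A ^ m) := by
        intro m
        induction m with
        | zero =>
          unfold TDeg
          simp
        | succ m ih =>
          have := tdeg_mul ih (tdeg_ff A)
          rw [← pow_succ] at this
          have e : -(m : ℤ) + -1 = -((m + 1 : ℕ) : ℤ) := by push_cast; ring
          rwa [e] at this
      have h3 := tdeg_mul (tdeg_tt (n := n) k) (h2 (d + 1))
      have e : 1 + -((d + 1 : ℕ) : ℤ) = -(d : ℤ) := by push_cast; ring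
      rwa [e] at h3
    · exact tdeg_zero _

theorem co_smul (Q : DZ (n + 1)) (η : Om A u) (i : Fin (d + 1)) :
    co A u (Q • η) i = act A u Q (co A u η i) := by
  change (-1 : Fld d n) ^ (i : ℕ) * act A u Q (cf A u η (univ.erase i)) =
    act A u Q ((-1 : Fld d n) ^ (i : ℕ) * cf A u η (univ.erase i))
  rcases neg_one_pow_eq_or (Fld d n) (i : ℕ) with h | h
  · rw [h, one_mul, one_mul]
  · rw [h, neg_one_mul, neg_one_mul, map_neg]

end

end Pool.Agent.Q64.EJ.FrmJ

namespace Pool.Agent.Q64.EJ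

theorem frm : S_frm := fun A u _ =>
  ⟨fun η hη => FrmJ.nab_zero_iff A u η hη, fun η hη => FrmJ.exact_iff A u η hη,
    fun η hη θ hθ h => FrmJ.uniq A u η hη θ hθ h, FrmJ.fOm_mem A u, FrmJ.co_fOm A u,
    FrmJ.co_smul A u, fun _ hη _ => ⟨FrmJ.sgn_rr A _ (hη _).2.1, FrmJ.sgn_tdeg _ (hη _).2.2⟩⟩

end Pool.Agent.Q64.EJ
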