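import Mathlib
import Pool.Agent.Q64.EJ.StB

/-! (written by helper224)
Project EI, job INB: transport by a field automorphism.
-/

set_option autoImplicit false

open Finset MvPolynomial Pool.Agent.Q64.EJ

namespace Pool.Agent.Q64.EJ.H224

section S

variable {d n : ℕ} (σ : ℂ ≃+* ℂ)

/-- The automorphism of the field of rational functions which acts on the coefficients. -/
noncomputable def Sg : Fld d n ≃+* Fld d n :=
  IsFractionRing.ringEquivOfRingEquiv (MvPolynomial.mapEquiv (Fin (d + 1) ⊕ Fin (n + 1)) σ)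

theorem Sg_map (p : Pol d n) : Sg σ (algebraMap (Pol d n) (Fld d n) p) =
    algebraMap (Pol d n) (Fld d n) (MvPolynomial.map (σ : ℂ →+* ℂ) p) := by
  rw [Sg, IsFractionRing.ringEquivOfRingEquiv_algebraMap]
  rfl

theorem Sg_symm (g : Fld d n) : Sg σ.symm (Sg σ g) = g := by
  obtain ⟨a, b, hb, rfl⟩ := IsFractionRing.div_surjective (A := Pol d n) g
  have h : ∀ p : Pol d n, MvPolynomial.map (σ.symm : ℂ →+* ℂ)
      (MvPolynomial.map (σ : ℂ →+* ℂ) p) = p := by
    intro p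
    rw [MvPolynomial.map_map]
    have : (σ.symm : ℂ →+* ℂ).comp (σ : ℂ →+* ℂ) = RingHom.id ℂ := by
      ext x
      simp
    rw [this, MvPolynomial.map_id]
  rw [map_div₀, map_div₀, Sg_map, Sg_map, Sg_map, Sg_map, h, h]

theorem Sg_alg (c : ℂ) : Sg σ (algebraMap ℂ (Fld d n) c) = algebraMap ℂ (Fld d n) (σ c) := by
  rw [IsScalarTower.algebraMap_apply ℂ (Pol d n) (Fld d n),
    IsScalarTower.algebraMap_apply ℂ (Pol d n) (Fld d n), Sg_map, MvPolynomial.algebraMap_eq,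
    MvPolynomial.map_C]
  rfl

theorem Sg_smul (c : ℂ) (g : Fld d n) : Sg σ (c • g) = σ c • Sg σ g := by
  rw [Algebra.smul_def, map_mul, Sg_alg, Algebra.smul_def]

theorem Sg_tt (i : Fin (d + 1)) : Sg σ (tt d n i) = tt d n i := by
  rw [tt, Sg_map, MvPolynomial.map_X]

theorem Sg_zv (j : Fin (n + 1)) : Sg σ (zv d n j) = zv d n j := by
  rw [zv, Sg_map, MvPolynomial.map_X]

theorem Sg_fder (v : Fin (d + 1) ⊕ Fin (n + 1)) (g : Fld d n) :
    Sg σ (fder v g) = fder v (Sg σ g) := by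
  obtain ⟨a, b, hb, rfl⟩ := IsFractionRing.div_surjective (A := Pol d n) g
  rw [fder_div, map_sub, map_div₀, map_div₀, map_mul, map_pow, map_div₀, fder_div, fder_map,
    fder_map, Sg_map, Sg_map, Sg_map, Sg_map, fder_map, fder_map, MvPolynomial.pderiv_map,
    MvPolynomial.pderiv_map]

variable {σ} {A : Matrix (Fin (d + 1)) (Fin (n + 1)) ℂ}

theorem Sg_el (hA : ∀ i j, σ (A i j) = A i j) (j : Fin (n + 1)) : Sg σ (el A j) = el A j := by
  rw [el, map_sum]
  apply Finset.sum_congr rfl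
  intro i _
  rw [Sg_smul, hA, Sg_tt]

theorem Sg_yy (hA : ∀ i j, σ (A i j) = A i j) (j : Fin (n + 1)) : Sg σ (yy A j) = yy A j := by
  rw [yy, map_inv₀, Sg_el hA]

theorem Sg_ff (hA : ∀ i j, σ (A i j) = A i j) : Sg σ (ff A) = ff A := by
  rw [ff, map_sum]
  apply Finset.sum_congr rfl
  intro j _
  rw [map_div₀, Sg_zv, Sg_el hA]

theorem Sg_ne (hA : ∀ i j, σ (A i j) = A i j) {u u' : Fin (n + 1) → ℂ}
    (hu : ∀ j, σ (u j) = u' j) (i : Fin (d + 1)) (g : Fld d n) :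
    Sg σ (ne A u i g) = ne A u' i (Sg σ g) := by
  rw [ne_apply, ne_apply, map_add, map_mul, Sg_fder]
  congr 2
  rw [oe, oe, map_add, Sg_fder, Sg_ff hA, map_sum]
  congr 1
  apply Finset.sum_congr rfl
  intro j _
  rw [Sg_smul, hu, map_div₀, Sg_fder, Sg_el hA]

theorem Sg_VV (hA : ∀ i j, σ (A i j) = A i j) {g : Fld d n} (hg : g ∈ VV A) : Sg σ g ∈ VV A := by
  unfold VV at hg
  induction hg using Algebra.adjoin_induction with
  | mem x hx =>
    rcases hx with ⟨j, rfl⟩ | ⟨j, rfl⟩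
    · rw [Sg_zv]
      exact Algebra.subset_adjoin (Or.inl ⟨j, rfl⟩)
    · rw [Sg_yy hA]
      exact Algebra.subset_adjoin (Or.inr ⟨j, rfl⟩)
  | algebraMap c =>
    rw [Sg_alg]
    exact (VV A).algebraMap_mem _
  | add x y _ _ hx hy =>
    rw [map_add]
    exact (VV A).add_mem hx hy
  | mul x y _ _ hx hy =>
    rw [map_mul]
    exact (VV A).mul_mem hx hy

theorem Sg_InW (hA : ∀ i j, σ (A i j) = A i j) {u u' : Fin (n + 1) → ℂ}
    (hu : ∀ j, σ (u j) = u' j) {g : Fld d n} (hg : InW A u g) : InW A u' (Sg σ g) := by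
  obtain ⟨h, h', h1, h2, h3⟩ := hg
  refine ⟨fun i => Sg σ (h i), Sg σ h', fun i => Sg_VV hA (h1 i), Sg_VV hA h2, ?_⟩
  rw [h3, map_sum]
  apply Finset.sum_congr rfl
  intro i _
  rw [Sg_ne hA hu, map_add, map_mul, Sg_tt]

end S

theorem inb : S_inb := by
  intro d n A u u' σ hA hu j hinj g hg hW
  have h1 : ∀ i, σ (tr u j 1 i) = tr u' j 1 i := by
    intro i
    rw [tr, tr, map_add, hu]
    split_ifs
    · rw [map_natCast]
    · rw [map_zero]
  have h2 := Sg_InW hA h1 hW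
  rw [map_mul, Sg_yy hA] at h2
  have h3 := hinj _ (Sg_VV hA hg) h2
  have hA' : ∀ i j, σ.symm (A i j) = A i j := by
    intro i j
    rw [RingEquiv.symm_apply_eq, hA]
  have hu' : ∀ j, σ.symm (u' j) = u j := by
    intro j
    rw [RingEquiv.symm_apply_eq, hu]
  have h4 := Sg_InW hA' hu' h3
  rw [Sg_symm] at h4
  exact h4

end Pool.Agent.Q64.EJ.H224
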