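import Pool.Agent.Q64.EJ.StB

/-!
Project EI (helper64), row MP_2f98db_ag: homogeneous components (job IND).
-/

set_option autoImplicit false

open Finset MvPolynomial

namespace Pool.Agent.Q64.EJ

theorem ind_aux {d n : ℕ} (s : Finset ℤ) : ∀ c : ℤ → Fld d n, (∀ q ∈ s, TDeg q (c q)) →
    ∑ q ∈ s, c q = 0 → ∀ q ∈ s, c q = 0 := by
  classical
  induction s using Finset.induction_on with
  | empty => intro c _ _ q hq; simp at hq
  | insert a s ha ih =>
    intro c hc hs
    rw [Finset.sum_insert ha] at hs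
    have hE : ∀ q ∈ insert a s, ∑ i, tt d n i * fder (Sum.inl i) (c q) = (q : Fld d n) * c q :=
      fun q hq => hc q hq
    have h1 : ∑ i, tt d n i * fder (Sum.inl i) (c a + ∑ q ∈ s, c q) =
        (a : Fld d n) * c a + ∑ q ∈ s, (q : Fld d n) * c q := by
      have : ∀ i, tt d n i * fder (Sum.inl i) (c a + ∑ q ∈ s, c q) =
          tt d n i * fder (Sum.inl i) (c a) + ∑ q ∈ s, tt d n i * fder (Sum.inl i) (c q) := by
        intro i
        rw [map_add, map_sum, mul_add, Finset.mul_sum]
      simp only [this, Finset.sum_add_distrib]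
      rw [hE a (Finset.mem_insert_self a s), Finset.sum_comm]
      congr 1
      exact Finset.sum_congr rfl fun q hq => hE q (Finset.mem_insert_of_mem hq)
    have h2 : ∑ q ∈ s, ((q : Fld d n) - a) * c q = 0 := by
      have h3 : ∑ i, tt d n i * fder (Sum.inl i) (c a + ∑ q ∈ s, c q) = 0 := by
        rw [hs]
        simp
      rw [h1] at h3
      simp only [sub_mul, Finset.sum_sub_distrib]
      rw [← Finset.mul_sum]
      linear_combination h3 - (a : Fld d n) * hs
    have h4 : ∀ q ∈ s, ((q : Fld d n) - a) * c q = 0 := by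
      refine ih (fun q : ℤ => ((q : Fld d n) - (a : Fld d n)) * c q) (fun q hq => ?_) h2
      have h5 : ((q : Fld d n) - a) * c q = ((q : ℂ) - a) • c q := by
        rw [Algebra.smul_def, map_sub, map_intCast, map_intCast]
      change TDeg q (((q : Fld d n) - (a : Fld d n)) * c q)
      rw [h5]
      exact tdeg_smul _ (hc q (Finset.mem_insert_of_mem hq))
    have h6 : ∀ q ∈ s, c q = 0 := by
      intro q hq
      rcases mul_eq_zero.1 (h4 q hq) with h | h
      · exfalso
        have h7 : (q : Fld d n) = (a : Fld d n) := sub_eq_zero.1 h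
        have h8 : q = a := by exact_mod_cast h7
        rw [h8] at hq
        exact ha hq
      · exact h
    intro q hq
    rcases Finset.mem_insert.1 hq with rfl | hq
    · rw [Finset.sum_eq_zero h6, add_zero] at hs
      exact hs
    · exact h6 q hq

theorem ind : S_ind := by
  intro d n c hc hs
  ext q
  by_cases hq : q ∈ c.support
  · exact ind_aux c.support c (fun q _ => hc q) hs q hq
  · simpa using hq

/-- Auxiliary: `g` is a sum of homogeneous elements of `O`. -/
def Grd {d n : ℕ} (A : Matrix (Fin (d + 1)) (Fin (n + 1)) ℂ) (g : Fld d n) : Prop :=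
  ∃ c : ℤ →₀ Fld d n, (∀ q, c q ∈ OO A ∧ TDeg q (c q)) ∧ g = c.sum fun _ x => x

section

variable {d n : ℕ} {A : Matrix (Fin (d + 1)) (Fin (n + 1)) ℂ}

theorem Grd.single {q : ℤ} {g : Fld d n} (h : g ∈ OO A) (h' : TDeg q g) : Grd A g := by
  refine ⟨Finsupp.single q g, fun r => ?_, by simp⟩
  by_cases hr : q = r
  · subst hr
    rw [Finsupp.single_eq_same]
    exact ⟨h, h'⟩
  · rw [Finsupp.single_eq_of_ne (Ne.symm hr)]
    exact ⟨(OO A).zero_mem, tdeg_zero r⟩

theorem Grd.add {g h : Fld d n} (hg : Grd A g) (hh : Grd A h) : Grd A (g + h) := by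
  obtain ⟨c, hc, rfl⟩ := hg
  obtain ⟨c', hc', rfl⟩ := hh
  refine ⟨c + c', fun q => ⟨(OO A).add_mem (hc q).1 (hc' q).1, tdeg_add (hc q).2 (hc' q).2⟩, ?_⟩
  rw [Finsupp.sum_add_index' (fun _ => rfl) (fun _ _ _ => rfl)]

theorem Grd.zero : Grd A (0 : Fld d n) := Grd.single (OO A).zero_mem (tdeg_zero 0)

theorem Grd.sum {ι : Type} (s : Finset ι) (g : ι → Fld d n) (h : ∀ i ∈ s, Grd A (g i)) :
    Grd A (∑ i ∈ s, g i) := by
  classical
  induction s using Finset.induction_on with
  | empty => rw [Finset.sum_empty]; exact Grd.zero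
  | insert a s ha ih =>
    rw [Finset.sum_insert ha]
    exact (h a (Finset.mem_insert_self a s)).add (ih fun i hi => h i (Finset.mem_insert_of_mem hi))

theorem Grd.mul {g h : Fld d n} (hg : Grd A g) (hh : Grd A h) : Grd A (g * h) := by
  obtain ⟨c, hc, rfl⟩ := hg
  obtain ⟨c', hc', rfl⟩ := hh
  rw [Finsupp.sum, Finsupp.sum, Finset.sum_mul_sum]
  exact Grd.sum _ _ fun q _ => Grd.sum _ _ fun r _ =>
    Grd.single ((OO A).mul_mem (hc q).1 (hc' r).1) (tdeg_mul (hc q).2 (hc' r).2)

end

theorem grd : S_grd := by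
  intro d n A g hg
  change Grd A g
  induction hg using Algebra.adjoin_induction with
  | mem x hx =>
    have hx' : x ∈ OO A := Algebra.subset_adjoin hx
    rcases hx with (⟨i, rfl⟩ | ⟨j, rfl⟩) | ⟨j, rfl⟩
    · exact Grd.single hx' (tdeg_tt i)
    · exact Grd.single hx' (tdeg_zv j)
    · exact Grd.single hx' (tdeg_inv (tdeg_el A j))
  | algebraMap r =>
    refine Grd.single (q := 0) ((OO A).algebraMap_mem r) ?_
    unfold TDeg
    simp [Derivation.map_algebraMap]
  | add x y _ _ hx hy => exact hx.add hy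
  | mul x y _ _ hx hy => exact hx.mul hy

end Pool.Agent.Q64.EJ
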