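import Pool.Agent.Q64.EJ.Oo
import Pool.Agent.Q64.EJ.Hom

/-!
Project EI (helper64), row MP_2f98db_ag: Koszul exactness of the operators `∇_i` (job KTR).
-/

set_option autoImplicit false

open Finset MvPolynomial

namespace Pool.Agent.Q64.EJ.Ktr

open Pool.Agent.Q64.EJ Pool.Agent.Q64.EJ.Oo

/-! ### Choice of columns -/

theorem exists_cols {d n : ℕ} (A : Matrix (Fin (d + 1)) (Fin (n + 1)) ℂ) (h : A.rank = d + 1) :
    ∃ (b : Fin (d + 1) → Fin (n + 1)) (W : Matrix (Fin (d + 1)) (Fin (d + 1)) ℂ),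
      Function.Injective b ∧ W * A.submatrix id b = 1 ∧ A.submatrix id b * W = 1 := by
  classical
  have hspan : Submodule.span ℂ (Set.range A.col) = ⊤ := by
    apply Submodule.eq_top_of_finrank_eq
    rw [← Matrix.rank_eq_finrank_span_cols, h, Module.finrank_fintype_fun_eq_card, Fintype.card_fin]
  obtain ⟨κ, a, ha, hs, hli⟩ := exists_linearIndependent' ℂ A.col
  rw [hspan] at hs
  let B : Module.Basis κ ℂ (Fin (d + 1) → ℂ) := Module.Basis.mk hli hs.ge
  have : Finite κ := Finite.of_injective a ha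
  have : Fintype κ := Fintype.ofFinite κ
  have hcard : Fintype.card κ = d + 1 := by
    rw [← Module.finrank_eq_card_basis B, Module.finrank_fintype_fun_eq_card, Fintype.card_fin]
  let e : Fin (d + 1) ≃ κ := (Fintype.equivFinOfCardEq hcard).symm
  let b : Fin (d + 1) → Fin (n + 1) := a ∘ e
  have hli2 : LinearIndependent ℂ (A.submatrix id b).col := by
    have h1 : (A.submatrix id b).col = (A.col ∘ a) ∘ e := by
      funext i j
      rfl
    rw [h1]
    exact hli.comp e e.injective
  have hu : IsUnit (A.submatrix id b) := Matrix.linearIndependent_cols_iff_isUnit.1 hli2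
  have hdet : IsUnit (A.submatrix id b).det := (Matrix.isUnit_iff_isUnit_det _).1 hu
  exact ⟨b, (A.submatrix id b)⁻¹, ha.comp e.injective, Matrix.nonsing_inv_mul _ hdet,
    Matrix.mul_nonsing_inv _ hdet⟩

/-! ### Independence over the constants of derivations -/

theorem D_aeval {F : Type} [Field F] [Algebra ℂ F] {k : ℕ} (z : Fin k → F)
    (D : Derivation ℂ F F) (m : Fin k) (hD : ∀ m', D (z m') = if m' = m then 1 else 0)
    (P : MvPolynomial (Fin k) ℂ) : D (aeval z P) = aeval z (pderiv m P) := by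
  induction P using MvPolynomial.induction_on with
  | C a => rw [pderiv_C, map_zero, aeval_C, Derivation.map_algebraMap]
  | add p q hp hq => rw [map_add, map_add, map_add, map_add, hp, hq]
  | mul_X p i hp =>
    rw [map_mul, Derivation.leibniz, Derivation.leibniz, hp, aeval_X, hD, pderiv_X, Pi.single_apply]
    simp only [smul_eq_mul, map_add, map_mul, aeval_X]
    split_ifs <;> simp

/-- The monomial `z^a`. -/
noncomputable def zm {F : Type} [Field F] {k : ℕ} (z : Fin k → F) (a : Fin k →₀ ℕ) : F :=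
  ∏ i, z i ^ a i

theorem zm_eq {F : Type} [Field F] [Algebra ℂ F] {k : ℕ} (z : Fin k → F) (a : Fin k →₀ ℕ) :
    zm z a = aeval z (monomial a (1 : ℂ)) := by
  rw [aeval_monomial, map_one, one_mul, Finsupp.prod_fintype _ _ (fun i => pow_zero _)]
  rfl

theorem zm_add {F : Type} [Field F] {k : ℕ} (z : Fin k → F) (a b : Fin k →₀ ℕ) :
    zm z (a + b) = zm z a * zm z b := by
  rw [zm, zm, zm, ← Finset.prod_mul_distrib]
  exact Finset.prod_congr rfl fun i _ => by rw [Finsupp.add_apply, pow_add]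

theorem zm_single {F : Type} [Field F] {k : ℕ} (z : Fin k → F) (m : Fin k) :
    zm z (Finsupp.single m 1) = z m := by
  rw [zm, Finset.prod_eq_single m]
  · rw [Finsupp.single_eq_same, pow_one]
  · intro b _ hb
    rw [Finsupp.single_eq_of_ne hb, pow_zero]
  · intro h
    exact absurd (mem_univ m) h

theorem zm_zero {F : Type} [Field F] {k : ℕ} (z : Fin k → F) : zm z 0 = 1 := by
  simp [zm]

theorem D_eval {F : Type} [Field F] [Algebra ℂ F] {k : ℕ} (z : Fin k → F)
    (D : Derivation ℂ F F) (m : Fin k) (hD : ∀ m', D (z m') = if m' = m then 1 else 0)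
    (P : MvPolynomial (Fin k) F) (hP : ∀ a, D (coeff a P) = 0) :
    D (eval z P) = eval z (pderiv m P) := by
  have h1 : ∀ Q : MvPolynomial (Fin k) F, eval z Q = ∑ a ∈ Q.support, coeff a Q * zm z a :=
    fun Q => eval_eq' z Q
  have h2 : eval z (pderiv m P) = ∑ a ∈ P.support, coeff a P * D (zm z a) := by
    conv_lhs => rw [P.as_sum, map_sum, map_sum]
    refine Finset.sum_congr rfl fun a _ => ?_
    rw [pderiv_monomial, eval_monomial, zm_eq, D_aeval z D m hD, pderiv_monomial, aeval_monomial,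
      one_mul, map_natCast, mul_assoc]
  rw [h1, map_sum, h2]
  refine Finset.sum_congr rfl fun a _ => ?_
  rw [Derivation.leibniz, hP, smul_zero, add_zero, smul_eq_mul]

theorem indep_aux {F : Type} [Field F] [CharZero F] [Algebra ℂ F] {k : ℕ} (z : Fin k → F)
    (D : Fin k → Derivation ℂ F F) (hD : ∀ m m', D m (z m') = if m' = m then 1 else 0) (N : ℕ) :
    ∀ P : MvPolynomial (Fin k) F, (∀ a ∈ P.support, (∑ i, a i) < N) →
      (∀ m a, D m (coeff a P) = 0) → eval z P = 0 → P = 0 := by
  induction N with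
  | zero =>
    intro P hP _ _
    rw [← MvPolynomial.support_eq_empty, Finset.eq_empty_iff_forall_notMem]
    exact fun a ha => absurd (hP a ha) (Nat.not_lt_zero _)
  | succ N ih =>
    intro P hP hc h0
    have h1 : ∀ m, pderiv m P = 0 := by
      intro m
      refine ih (pderiv m P) (fun a ha => ?_) (fun m' a => ?_) ?_
      · rw [mem_support_iff, coeff_pderiv] at ha
        have h2 := hP (a + Finsupp.single m 1) (mem_support_iff.2 (left_ne_zero_of_mul ha))
        have h3 : ∑ i, (a + Finsupp.single m 1 : Fin k →₀ ℕ) i = ∑ i, a i + 1 := by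
          simp only [Finsupp.add_apply, Finset.sum_add_distrib, Finsupp.single_apply]
          simp
        omega
      · rw [coeff_pderiv, Derivation.leibniz, hc]
        have h4 : D m' ((a m : F) + 1) = 0 := by
          have := (D m').map_natCast (a m + 1)
          push_cast at this
          exact this
        rw [h4, smul_zero, smul_zero, add_zero]
      · rw [← D_eval z (D m) m (hD m) P (hc m), h0, map_zero]
    have h5 : ∀ a, a ≠ 0 → coeff a P = 0 := by
      intro a ha
      obtain ⟨m, hm⟩ := Finsupp.ne_iff.1 ha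
      rw [Finsupp.coe_zero, Pi.zero_apply] at hm
      have h6 : a = (a - Finsupp.single m 1) + Finsupp.single m 1 := by
        rw [tsub_add_cancel_of_le]
        rw [Finsupp.single_le_iff]
        omega
      have h7 : coeff (a - Finsupp.single m 1) (pderiv m P) = 0 := by rw [h1 m, coeff_zero]
      rw [coeff_pderiv, ← h6] at h7
      exact (mul_eq_zero.1 h7).resolve_right (Nat.cast_add_one_ne_zero _)
    have h8 : P = C (coeff 0 P) := by
      ext a
      rw [coeff_C]
      split_ifs with h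
      · rw [← h]
      · exact h5 a (Ne.symm h)
    rw [h8, eval_C] at h0
    rw [h8, h0, C_0]

theorem indep {F : Type} [Field F] [CharZero F] [Algebra ℂ F] {k : ℕ} (z : Fin k → F)
    (D : Fin k → Derivation ℂ F F) (hD : ∀ m m', D m (z m') = if m' = m then 1 else 0)
    (f : (Fin k →₀ ℕ) →₀ F) (hf : ∀ m a, D m (f a) = 0)
    (h0 : (f.sum fun a x => zm z a * x) = 0) : f = 0 := by
  classical
  let P : MvPolynomial (Fin k) F := ∑ a ∈ f.support, monomial a (f a)
  have hco : ∀ a, coeff a P = f a := by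
    intro a
    change coeff a (∑ b ∈ f.support, monomial b (f b)) = f a
    rw [MvPolynomial.coeff_sum]
    simp only [coeff_monomial]
    rw [Finset.sum_ite_eq']
    split_ifs with h
    · rfl
    · exact (Finsupp.notMem_support_iff.1 h).symm
  have hev : eval z P = 0 := by
    change eval z (∑ b ∈ f.support, monomial b (f b)) = 0
    rw [map_sum, ← h0, Finsupp.sum]
    refine Finset.sum_congr rfl fun a _ => ?_
    rw [eval_monomial, Finsupp.prod_fintype _ _ (fun i => pow_zero _), mul_comm]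
    rfl
  have hP : P = 0 := by
    refine indep_aux z D hD ((P.support.sup fun a => ∑ i, a i) + 1) P (fun a ha => ?_)
      (fun m a => ?_) hev
    · exact Nat.lt_succ_of_le (Finset.le_sup (f := fun a : Fin k →₀ ℕ => ∑ i, a i) ha)
    · rw [hco, hf]
  ext a
  rw [← hco, hP, coeff_zero, Finsupp.coe_zero, Pi.zero_apply]

/-! ### The operators -/

section

variable {d n : ℕ} (A : Matrix (Fin (d + 1)) (Fin (n + 1)) ℂ) (u : Fin (n + 1) → ℂ)
  (b : Fin (d + 1) → Fin (n + 1)) (W : Matrix (Fin (d + 1)) (Fin (d + 1)) ℂ)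

/-- The subspace `N` of the elements of `O` without the variables `z_(b m)`. -/
noncomputable def NN : Submodule ℂ (Fld d n) where
  carrier := {g | g ∈ OO A ∧ ∀ m, fder (Sum.inr (b m)) g = 0}
  add_mem' := fun hx hy => ⟨(OO A).add_mem hx.1 hy.1, fun m => by
    rw [map_add, hx.2 m, hy.2 m, add_zero]⟩
  zero_mem' := ⟨(OO A).zero_mem, fun m => map_zero _⟩
  smul_mem' := fun c x hx => ⟨(OO A).smul_mem hx.1 c, fun m => by
    rw [Derivation.map_smul, hx.2 m, smul_zero]⟩

theorem nn_mul {x y : Fld d n} (hx : x ∈ NN A b) (hy : y ∈ NN A b) : x * y ∈ NN A b :=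
  ⟨(OO A).mul_mem hx.1 hy.1, fun m => by
    rw [Derivation.leibniz, hx.2 m, hy.2 m, smul_zero, smul_zero, add_zero]⟩

theorem nn_el (j : Fin (n + 1)) : el A j ∈ NN A b :=
  ⟨Oo.el_mem A j, fun _ => fder_el_inr A j _⟩

theorem nn_yy (j : Fin (n + 1)) : yy A j ∈ NN A b :=
  ⟨Oo.yy_mem A j, fun _ => by rw [yy, fder_inv, fder_el_inr, zero_mul, neg_zero]⟩

/-- The derivation `D_m = ∑ W_mi ∂/∂t_i`. -/
noncomputable def Dm (m : Fin (d + 1)) : Module.End ℂ (Fld d n) :=
  ∑ i, W m i • (fder (Sum.inl i) : Derivation ℂ (Fld d n) (Fld d n)).toLinearMap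

theorem Dm_apply (m : Fin (d + 1)) (g : Fld d n) :
    Dm W m g = ∑ i, W m i • fder (Sum.inl i) g := by
  rw [Dm, LinearMap.sum_apply]
  rfl

theorem Dm_mul (m : Fin (d + 1)) (g h : Fld d n) :
    Dm W m (g * h) = g * Dm W m h + Dm W m g * h := by
  rw [Dm_apply, Dm_apply, Dm_apply, Finset.mul_sum, Finset.sum_mul, ← Finset.sum_add_distrib]
  refine Finset.sum_congr rfl fun i _ => ?_
  rw [Derivation.leibniz, smul_add, smul_eq_mul, smul_eq_mul, mul_smul_comm, smul_mul_assoc,
    mul_comm h]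

theorem Dm_comm (m m' : Fin (d + 1)) (g : Fld d n) :
    Dm W m (Dm W m' g) = Dm W m' (Dm W m g) := by
  have h1 : ∀ m m' : Fin (d + 1), Dm W m (Dm W m' g) =
      ∑ i, ∑ j, (W m i * W m' j) • fder (Sum.inl i) (fder (Sum.inl j) g) := by
    intro m m'
    rw [Dm_apply]
    refine Finset.sum_congr rfl fun i _ => ?_
    rw [Dm_apply, map_sum, Finset.smul_sum]
    refine Finset.sum_congr rfl fun j _ => ?_
    rw [Derivation.map_smul, smul_smul]
  rw [h1, h1, Finset.sum_comm]
  refine Finset.sum_congr rfl fun i _ => Finset.sum_congr rfl fun j _ => ?_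
  rw [fder_comm, mul_comm]

theorem Dm_inr (m : Fin (d + 1)) (k : Fin (n + 1)) (g : Fld d n) :
    fder (Sum.inr k) (Dm W m g) = Dm W m (fder (Sum.inr k) g) := by
  rw [Dm_apply, Dm_apply, map_sum]
  refine Finset.sum_congr rfl fun i _ => ?_
  rw [Derivation.map_smul, fder_comm]

theorem Dm_oo (m : Fin (d + 1)) {g : Fld d n} (hg : g ∈ OO A) : Dm W m g ∈ OO A := by
  rw [Dm_apply]
  exact (OO A).sum_mem fun i _ => (OO A).smul_mem (Oo.fder_mem A _ hg) _

theorem Dm_nn (m : Fin (d + 1)) {g : Fld d n} (hg : g ∈ NN A b) : Dm W m g ∈ NN A b :=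
  ⟨Dm_oo A W m hg.1, fun k => by rw [Dm_inr, hg.2 k, map_zero]⟩

theorem Dm_el (hW : W * A.submatrix id b = 1) (m m' : Fin (d + 1)) :
    Dm W m (el A (b m')) = if m' = m then 1 else 0 := by
  have h1 : (W * A.submatrix id b) m m' = ∑ i, W m i * A i (b m') := Matrix.mul_apply
  rw [hW, Matrix.one_apply] at h1
  rw [Dm_apply]
  simp only [fder_el_inl, Algebra.smul_def, ← map_mul]
  rw [← map_sum, ← h1]
  by_cases h : m = m'
  · rw [if_pos h, if_pos h.symm, map_one]
  · rw [if_neg h, if_neg (Ne.symm h), map_zero]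

theorem Dm_yy (hcol : ∀ j, ∃ i, A i j ≠ 0) (hW : W * A.submatrix id b = 1) (m m' : Fin (d + 1)) :
    Dm W m (yy A (b m')) = if m' = m then -(yy A (b m')) ^ 2 else 0 := by
  have h0 := el_ne A hcol (b m')
  have h1 : Dm W m (el A (b m') * yy A (b m')) = 0 := by
    rw [yy, mul_inv_cancel₀ h0, Dm_apply]
    exact Finset.sum_eq_zero fun i _ => by rw [Derivation.map_one_eq_zero, smul_zero]
  rw [Dm_mul, Dm_el A b W hW] at h1
  have h3 : el A (b m') * yy A (b m') = 1 := mul_inv_cancel₀ h0
  have h2 : Dm W m (yy A (b m')) = -(if m' = m then 1 else 0) * yy A (b m') ^ 2 := by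
    linear_combination yy A (b m') * h1 - Dm W m (yy A (b m')) * h3
  rw [h2]
  split_ifs <;> simp

/-- The function `P_m = ∑ W_mi oe_i`. -/
noncomputable def Pm (m : Fin (d + 1)) : Fld d n := ∑ i, W m i • oe A u i

/-- The operator `T_m = ∑ W_mi ∇_i`. -/
noncomputable def Tm (m : Fin (d + 1)) : Module.End ℂ (Fld d n) := ∑ i, W m i • ne A u i

theorem Tm_apply (m : Fin (d + 1)) (g : Fld d n) : Tm A u W m g = ∑ i, W m i • ne A u i g := by
  rw [Tm, LinearMap.sum_apply]
  rfl

theorem Tm_eq (m : Fin (d + 1)) (g : Fld d n) :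
    Tm A u W m g = Dm W m g + Pm A u W m * g := by
  rw [Tm_apply, Dm_apply, Pm, Finset.sum_mul, ← Finset.sum_add_distrib]
  refine Finset.sum_congr rfl fun i _ => ?_
  rw [ne_apply, smul_add, smul_mul_assoc]

theorem Pm_symm (m m' : Fin (d + 1)) : Dm W m (Pm A u W m') = Dm W m' (Pm A u W m) := by
  have h1 : ∀ m m' : Fin (d + 1), Dm W m (Pm A u W m') =
      ∑ i, ∑ j, (W m i * W m' j) • fder (Sum.inl i) (oe A u j) := by
    intro m m'
    rw [Dm_apply]
    refine Finset.sum_congr rfl fun i _ => ?_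
    rw [Pm, map_sum, Finset.smul_sum]
    refine Finset.sum_congr rfl fun j _ => ?_
    rw [Derivation.map_smul, smul_smul]
  rw [h1, h1, Finset.sum_comm]
  refine Finset.sum_congr rfl fun i _ => Finset.sum_congr rfl fun j _ => ?_
  rw [oe_symm A u, mul_comm]

/-- The function `p_m = P_m + z_(b m) y_(b m)^2`. -/
noncomputable def pm (m : Fin (d + 1)) : Fld d n :=
  Pm A u W m + zv d n (b m) * yy A (b m) ^ 2

theorem Dm_zv (m : Fin (d + 1)) (j : Fin (n + 1)) : Dm W m (zv d n j) = 0 := by
  rw [Dm_apply]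
  exact Finset.sum_eq_zero fun i _ => by rw [fder_zv, if_neg (by simp), smul_zero]

theorem Dm_zyy (hcol : ∀ j, ∃ i, A i j ≠ 0) (hW : W * A.submatrix id b = 1)
    {m m' : Fin (d + 1)} (h : m' ≠ m) : Dm W m (zv d n (b m') * yy A (b m') ^ 2) = 0 := by
  rw [pow_two, Dm_mul, Dm_mul, Dm_zv, Dm_yy A b W hcol hW, if_neg h]
  ring

theorem pm_symm (hcol : ∀ j, ∃ i, A i j ≠ 0) (hW : W * A.submatrix id b = 1)
    {m m' : Fin (d + 1)} (h : m' ≠ m) : Dm W m (pm A u b W m') = Dm W m' (pm A u b W m) := by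
  rw [pm, pm, map_add, map_add, Pm_symm, Dm_zyy A b W hcol hW h, Dm_zyy A b W hcol hW h.symm]

theorem oe_inr (i : Fin (d + 1)) (k : Fin (n + 1)) :
    fder (Sum.inr k) (oe A u i) = -(algebraMap ℂ (Fld d n) (A i k) * yy A k ^ 2) := by
  have h1 : fder (Sum.inr k) (oe A u i) = fder (Sum.inl i) (fder (Sum.inr k) (ff A)) := by
    rw [oe, map_add, fder_comm (Sum.inl i) (Sum.inr k) (ff A), map_sum, Finset.sum_eq_zero,
      add_zero]
    intro l _
    rw [Derivation.map_smul, fder_el_inl, fder_div, fder_el_inr, Derivation.map_algebraMap]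
    simp
  rw [h1, fder_ff_inr, fder_inv, fder_el_inl]
  rfl

theorem pm_nn (hW : W * A.submatrix id b = 1) (hb : Function.Injective b) (m : Fin (d + 1)) :
    pm A u b W m ∈ NN A b := by
  refine ⟨(OO A).add_mem ((OO A).sum_mem fun i _ => (OO A).smul_mem (Oo.oe_mem A u i) _)
    ((OO A).mul_mem (Oo.zv_mem A _) ((OO A).pow_mem (Oo.yy_mem A _) _)), fun k => ?_⟩
  have h1 : (W * A.submatrix id b) m k = ∑ i, W m i * A i (b k) := Matrix.mul_apply
  rw [hW, Matrix.one_apply] at h1
  have h2 : fder (Sum.inr (b k)) (Pm A u W m) =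
      -(algebraMap ℂ (Fld d n) (if m = k then 1 else 0) * yy A (b k) ^ 2) := by
    rw [Pm, map_sum, h1, map_sum, Finset.sum_mul, ← Finset.sum_neg_distrib]
    refine Finset.sum_congr rfl fun i _ => ?_
    rw [Derivation.map_smul, oe_inr, Algebra.smul_def, map_mul]
    ring
  have h3 : fder (Sum.inr (b k)) (yy A (b m)) = 0 := (nn_yy A b (b m)).2 k
  have h4 : fder (Sum.inr (b k)) (yy A (b m) ^ 2) = 0 := by
    rw [pow_two, Derivation.leibniz, h3, smul_zero, add_zero]
  rw [pm, map_add, h2, Derivation.leibniz, h4, fder_zv]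
  simp only [smul_eq_mul, mul_zero, zero_add]
  by_cases h : m = k
  · subst h
    rw [if_pos rfl, if_pos rfl, map_one]
    ring
  · rw [if_neg h, if_neg, map_zero]
    · ring
    · intro h4
      exact h (hb (Sum.inr.inj h4).symm)

end

end Pool.Agent.Q64.EJ.Ktr
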