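import Pool.Agent.Q64.EJ.Ktr

/-!
Project EI (helper64), row MP_2f98db_ag: Koszul exactness of the operators `∇_i` (job KTR), second
part.
-/

set_option autoImplicit false

open Finset MvPolynomial

namespace Pool.Agent.Q64.EJ.Ktr

open Pool.Agent.Q64.EJ Pool.Agent.Q64.EJ.Oo

section

variable {d n : ℕ} (A : Matrix (Fin (d + 1)) (Fin (n + 1)) ℂ) (u : Fin (n + 1) → ℂ)
  (b : Fin (d + 1) → Fin (n + 1)) (W : Matrix (Fin (d + 1)) (Fin (d + 1)) ℂ)

/-- Restriction of an operator to `N`. -/
noncomputable def en (L : Module.End ℂ (Fld d n)) (hL : ∀ x ∈ NN A b, L x ∈ NN A b) :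
    AddMonoid.End (NN A b) where
  toFun x := ⟨L x, hL x x.2⟩
  map_zero' := Subtype.ext (map_zero L)
  map_add' x y := Subtype.ext (map_add L x.1 y.1)

theorem en_apply (L : Module.End ℂ (Fld d n)) (hL : ∀ x ∈ NN A b, L x ∈ NN A b) (x : NN A b) :
    ((en A b L hL x : NN A b) : Fld d n) = L x := rfl

theorem nn_neg {x : Fld d n} (hx : x ∈ NN A b) : -x ∈ NN A b := (NN A b).neg_mem hx

/-- The operator `e_m`, multiplication by `-y_(b m)^2`. -/
noncomputable def ee (m : Fin (d + 1)) : AddMonoid.End (NN A b) :=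
  en A b (LinearMap.mulLeft ℂ (-(yy A (b m)) ^ 2)) fun x hx => by
    rw [LinearMap.mulLeft_apply]
    exact nn_mul A b (nn_neg A b (by
      rw [pow_two]
      exact nn_mul A b (nn_yy A b _) (nn_yy A b _))) hx

/-- The inverse of `e_m`, multiplication by `-ℓ_(b m)^2`. -/
noncomputable def ee' (m : Fin (d + 1)) : AddMonoid.End (NN A b) :=
  en A b (LinearMap.mulLeft ℂ (-(el A (b m)) ^ 2)) fun x hx => by
    rw [LinearMap.mulLeft_apply]
    exact nn_mul A b (nn_neg A b (by
      rw [pow_two]
      exact nn_mul A b (nn_el A b _) (nn_el A b _))) hx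

/-- The operator `δ_m = D_m + p_m`. -/
noncomputable def dl (hW : W * A.submatrix id b = 1) (hb : Function.Injective b)
    (m : Fin (d + 1)) : AddMonoid.End (NN A b) :=
  en A b (Dm W m + LinearMap.mulLeft ℂ (pm A u b W m)) fun x hx => by
    rw [LinearMap.add_apply, LinearMap.mulLeft_apply]
    exact (NN A b).add_mem (Dm_nn A b W m hx) (nn_mul A b (pm_nn A u b W hW hb m) hx)

/-- The variables `z_(b m)`. -/
noncomputable def zb (d : ℕ) {n : ℕ} (b : Fin (d + 1) → Fin (n + 1)) (m : Fin (d + 1)) : Fld d n :=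
  zv d n (b m)

/-- The map `f ↦ ∑ z^a f_a`. -/
noncomputable def Ph : ((Fin (d + 1) →₀ ℕ) →₀ NN A b) →+ Fld d n :=
  Finsupp.liftAddHom fun a =>
    { toFun := fun x => zm (zb d b) a * (x : Fld d n)
      map_zero' := by simp
      map_add' := fun x y => by
        rw [Submodule.coe_add, mul_add] }

theorem Ph_single (a : Fin (d + 1) →₀ ℕ) (x : NN A b) :
    Ph A b (Finsupp.single a x) = zm (zb d b) a * (x : Fld d n) := by
  rw [Ph, Finsupp.liftAddHom_apply_single]
  rfl

/-- The abstract operator. -/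
noncomputable def TT (e δ : AddMonoid.End (NN A b)) (m : Fin (d + 1)) :
    AddMonoid.End ((Fin (d + 1) →₀ ℕ) →₀ NN A b) :=
  Finsupp.liftAddHom fun a => (Finsupp.singleAddHom (a + Finsupp.single m 1)).comp e +
    (Finsupp.singleAddHom a).comp δ

theorem TT_single (e δ : AddMonoid.End (NN A b)) (m : Fin (d + 1)) (a : Fin (d + 1) →₀ ℕ)
    (x : NN A b) : TT A b e δ m (Finsupp.single a x) =
      Finsupp.single (a + Finsupp.single m 1) (e x) + Finsupp.single a (δ x) := by
  rw [TT]
  erw [Finsupp.liftAddHom_apply_single]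
  rfl

theorem Dm_aeval (m : Fin (d + 1)) (P : MvPolynomial (Fin (d + 1)) ℂ) :
    Dm W m (aeval (zb d b) P) = 0 := by
  induction P using MvPolynomial.induction_on with
  | C a =>
    rw [aeval_C, Dm_apply]
    exact Finset.sum_eq_zero fun i _ => by rw [Derivation.map_algebraMap, smul_zero]
  | add p q hp hq => rw [map_add, map_add, hp, hq, add_zero]
  | mul_X p i hp =>
    rw [map_mul, Dm_mul, hp, aeval_X, zb, Dm_zv, mul_zero, zero_mul, add_zero]

theorem inter (hW : W * A.submatrix id b = 1)
    (hb : Function.Injective b) (m : Fin (d + 1)) (f : (Fin (d + 1) →₀ ℕ) →₀ NN A b) :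
    Ph A b (TT A b (ee A b m) (dl A u b W hW hb m) m f) = Tm A u W m (Ph A b f) := by
  induction f using Finsupp.induction_linear with
  | zero => rw [map_zero, map_zero, map_zero]
  | add f g hf hg => rw [map_add, map_add, hf, hg, map_add, map_add]
  | single a x =>
    rw [TT_single, map_add, Ph_single, Ph_single, Ph_single]
    change zm (zb d b) (a + Finsupp.single m 1) * (-(yy A (b m)) ^ 2 * (x : Fld d n)) +
      zm (zb d b) a * (Dm W m (x : Fld d n) + pm A u b W m * (x : Fld d n)) =
        Tm A u W m (zm (zb d b) a * (x : Fld d n))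
    rw [Tm_eq, Dm_mul, zm_add, zm_single, zm_eq, Dm_aeval, pm, zb]
    ring

theorem Ph_neg (f : (Fin (d + 1) →₀ ℕ) →₀ NN A b) : Ph A b (-f) = -Ph A b f := by
  have h : Ph A b f + Ph A b (-f) = 0 :=
    (map_add (Ph A b) f (-f)).symm.trans
      ((congrArg (Ph A b) (add_neg_cancel f)).trans (map_zero (Ph A b)))
  exact eq_neg_of_add_eq_zero_right h

theorem Ph_mem (f : (Fin (d + 1) →₀ ℕ) →₀ NN A b) : Ph A b f ∈ OO A := by
  induction f using Finsupp.induction_linear with
  | zero => rw [map_zero]; exact (OO A).zero_mem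
  | add f g hf hg => rw [map_add]; exact (OO A).add_mem hf hg
  | single a x =>
    rw [Ph_single]
    exact (OO A).mul_mem ((OO A).prod_mem fun i _ => (OO A).pow_mem (Oo.zv_mem A _) _) x.2.1

theorem Ph_surj {g : Fld d n} (hg : g ∈ OO A) : ∃ f, Ph A b f = g := by
  have h0 : ∀ x : Fld d n, x ∈ NN A b → ∃ f, Ph A b f = x := by
    intro x hx
    refine ⟨Finsupp.single 0 ⟨x, hx⟩, ?_⟩
    rw [Ph_single, zm_zero, one_mul]
  induction hg using Algebra.adjoin_induction with
  | mem x hx =>
    rcases hx with (⟨i, rfl⟩ | ⟨j, rfl⟩) | ⟨j, rfl⟩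
    · exact h0 _ ⟨Oo.tt_mem A i, fun m => by rw [fder_tt, if_neg (by simp)]⟩
    · by_cases hj : ∃ m, b m = j
      · obtain ⟨m, rfl⟩ := hj
        have h1 : (1 : Fld d n) ∈ NN A b :=
          ⟨(OO A).one_mem, fun m => Derivation.map_one_eq_zero _⟩
        refine ⟨Finsupp.single (Finsupp.single m 1) ⟨1, h1⟩, ?_⟩
        rw [Ph_single, zm_single, mul_one, zb]
      · refine h0 _ ⟨Oo.zv_mem A j, fun m => ?_⟩
        rw [fder_zv, if_neg]
        intro h
        exact hj ⟨m, Sum.inr.inj h⟩
    · exact h0 _ (nn_yy A b j)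
  | algebraMap r =>
    exact h0 _ ⟨(OO A).algebraMap_mem r, fun m => Derivation.map_algebraMap _ _⟩
  | add x y _ _ hx hy =>
    obtain ⟨f, rfl⟩ := hx
    obtain ⟨g, rfl⟩ := hy
    exact ⟨f + g, map_add _ _ _⟩
  | mul x y _ _ hx hy =>
    obtain ⟨f, rfl⟩ := hx
    obtain ⟨g, rfl⟩ := hy
    induction f using Finsupp.induction_linear with
    | zero => exact ⟨0, by rw [map_zero, zero_mul]⟩
    | add f f' hf hf' =>
      obtain ⟨h, hh⟩ := hf (Ph_mem A b f)
      obtain ⟨h', hh'⟩ := hf' (Ph_mem A b f')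
      exact ⟨h + h', by rw [map_add, map_add, add_mul, hh, hh']⟩
    | single a x =>
      induction g using Finsupp.induction_linear with
      | zero => exact ⟨0, by rw [map_zero, mul_zero]⟩
      | add g g' hg hg' =>
        obtain ⟨h, hh⟩ := hg (Ph_mem A b g)
        obtain ⟨h', hh'⟩ := hg' (Ph_mem A b g')
        exact ⟨h + h', by rw [map_add, map_add, mul_add, hh, hh']⟩
      | single a' x' =>
        refine ⟨Finsupp.single (a + a') ⟨(x : Fld d n) * x', nn_mul A b x.2 x'.2⟩, ?_⟩
        rw [Ph_single, Ph_single, Ph_single, zm_add]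
        ring

theorem Ph_inj (hb : Function.Injective b) (f : (Fin (d + 1) →₀ ℕ) →₀ NN A b)
    (h0 : Ph A b f = 0) : f = 0 := by
  let f' : (Fin (d + 1) →₀ ℕ) →₀ Fld d n := f.mapRange (fun x : NN A b => (x : Fld d n)) rfl
  have h1 : f' = 0 := by
    refine indep (zb d b) (fun m => fder (Sum.inr (b m))) (fun m m' => ?_) f' (fun m a => ?_) ?_
    · rw [zb, fder_zv]
      by_cases h : m' = m
      · subst h
        rw [if_pos rfl, if_pos rfl]
      · rw [if_neg h, if_neg]
        intro h2
        exact h (hb (Sum.inr.inj h2).symm)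
    · exact (f a).2.2 m
    · change ((f.mapRange (fun x : NN A b => (x : Fld d n)) rfl).sum fun a x => zm (zb d b) a * x) = 0
      rw [Finsupp.sum_mapRange_index (fun a => mul_zero _)]
      exact h0
  ext a
  have h2 : f' a = 0 := by rw [h1]; rfl
  exact h2

end

end Pool.Agent.Q64.EJ.Ktr

namespace Pool.Agent.Q64.EJ

open Pool.Agent.Q64.EJ.Ktr in
theorem ktr : S_kos → S_ktr := by
  intro hkos d n A u hrank hcol g hg h0
  obtain ⟨b, W, hb, hW, hW'⟩ := exists_cols A hrank
  set M : Matrix (Fin (d + 1)) (Fin (d + 1)) ℂ := A.submatrix id b with hM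
  -- the transformed family
  let G : Fin (d + 1) → Fld d n := fun m => ∑ i, M i m • g i
  have hG : ∀ m, G m ∈ OO A := fun m => (OO A).sum_mem fun i _ => (OO A).smul_mem (hg i) _
  have hMW : ∀ i j, ∑ m, M i m * W m j = if i = j then 1 else 0 := by
    intro i j
    have : (M * W) i j = ∑ m, M i m * W m j := Matrix.mul_apply
    rw [← this, hW', Matrix.one_apply]
  have hG0 : ∑ m, Tm A u W m (G m) = 0 := by
    have e1 : ∀ m, Tm A u W m (G m) = ∑ i, ∑ j, (M i m * W m j) • ne A u j (g i) := by
      intro m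
      change Tm A u W m (∑ i, M i m • g i) = _
      rw [map_sum]
      refine Finset.sum_congr rfl fun i _ => ?_
      rw [map_smul, Tm_apply, Finset.smul_sum]
      exact Finset.sum_congr rfl fun j _ => by rw [smul_smul]
    simp only [e1]
    rw [Finset.sum_comm]
    have e2 : ∀ i, ∑ m, ∑ j, (M i m * W m j) • ne A u j (g i) = ne A u i (g i) := by
      intro i
      rw [Finset.sum_comm]
      have e3 : ∀ j, ∑ m, (M i m * W m j) • ne A u j (g i) =
          (if i = j then (1 : ℂ) else 0) • ne A u j (g i) := by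
        intro j
        rw [← Finset.sum_smul, hMW]
      simp only [e3, ite_smul, one_smul, zero_smul]
      rw [Finset.sum_ite_eq, if_pos (mem_univ i)]
    simp only [e2]
    exact h0
  have hchoice : ∀ m, ∃ f, Ph A b f = G m := fun m => Ph_surj A b (hG m)
  choose F hF using hchoice
  obtain ⟨B, hB, _, hBF⟩ := hkos (d + 1) (NN A b) (dl A u b W hW hb) (ee A b) (ee' A b)
    (fun m => by
      have hy : el A (b m) * yy A (b m) = 1 := mul_inv_cancel₀ (el_ne A hcol (b m))
      constructor
      · ext x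
        change -(yy A (b m)) ^ 2 * (-(el A (b m)) ^ 2 * (x : Fld d n)) = x
        linear_combination ((x : Fld d n) * (el A (b m) * yy A (b m) + 1)) * hy
      · ext x
        change -(el A (b m)) ^ 2 * (-(yy A (b m)) ^ 2 * (x : Fld d n)) = x
        linear_combination ((x : Fld d n) * (el A (b m) * yy A (b m) + 1)) * hy)
    (fun i j hij => by
      refine ⟨?_, ?_, ?_⟩
      · ext x
        change -(yy A (b i)) ^ 2 * (-(yy A (b j)) ^ 2 * (x : Fld d n)) =
          -(yy A (b j)) ^ 2 * (-(yy A (b i)) ^ 2 * (x : Fld d n))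
        ring
      · ext x
        change -(yy A (b i)) ^ 2 * (Dm W j (x : Fld d n) + pm A u b W j * (x : Fld d n)) =
          Dm W j (-(yy A (b i)) ^ 2 * (x : Fld d n)) +
            pm A u b W j * (-(yy A (b i)) ^ 2 * (x : Fld d n))
        have h1 : Dm W j (-(yy A (b i)) ^ 2) = 0 := by
          rw [map_neg, pow_two, Dm_mul, Dm_yy A b W hcol hW, if_neg hij]
          ring
        rw [Dm_mul, h1]
        ring
      · ext x
        change Dm W i (Dm W j (x : Fld d n) + pm A u b W j * (x : Fld d n)) +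
            pm A u b W i * (Dm W j (x : Fld d n) + pm A u b W j * (x : Fld d n)) =
          Dm W j (Dm W i (x : Fld d n) + pm A u b W i * (x : Fld d n)) +
            pm A u b W j * (Dm W i (x : Fld d n) + pm A u b W i * (x : Fld d n))
        rw [map_add, map_add, Dm_mul, Dm_mul, Dm_comm W i j, pm_symm A u b W hcol hW hij.symm]
        ring)
    (fun m => TT A b (ee A b m) (dl A u b W hW hb m) m)
    (fun m a x => TT_single A b _ _ m a x) F (by
      apply Ph_inj A b hb
      rw [map_sum, ← hG0]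
      exact Finset.sum_congr rfl fun m _ => by rw [inter A u b W hW hb, hF])
  have hGB : ∀ m, G m = ∑ m', Tm A u W m' (Ph A b (B m m')) := by
    intro m
    rw [← hF m, hBF m, map_sum]
    exact Finset.sum_congr rfl fun m' _ => by rw [inter A u b W hW hb]
  refine ⟨fun i j => ∑ m, ∑ m', (W m i * W m' j) • Ph A b (B m m'), fun i j => ?_, fun i j => ?_,
    fun i => ?_⟩
  · exact (OO A).sum_mem fun m _ => (OO A).sum_mem fun m' _ => (OO A).smul_mem (Ph_mem A b _) _
  · change ∑ m, ∑ m', (W m i * W m' j) • Ph A b (B m m') =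
      -∑ m, ∑ m', (W m j * W m' i) • Ph A b (B m m')
    rw [Finset.sum_comm, ← Finset.sum_neg_distrib]
    refine Finset.sum_congr rfl fun m _ => ?_
    rw [← Finset.sum_neg_distrib]
    refine Finset.sum_congr rfl fun m' _ => ?_
    rw [hB m' m, Ph_neg, smul_neg, mul_comm]
  · have e1 : g i = ∑ m, W m i • G m := by
      have e2 : ∀ m, W m i • G m = ∑ i', (M i' m * W m i) • g i' := by
        intro m
        change W m i • ∑ i', M i' m • g i' = _
        rw [Finset.smul_sum]
        exact Finset.sum_congr rfl fun i' _ => by rw [smul_smul, mul_comm]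
      simp only [e2]
      rw [Finset.sum_comm]
      have e3 : ∀ i', ∑ m, (M i' m * W m i) • g i' = (if i' = i then (1 : ℂ) else 0) • g i' := by
        intro i'
        rw [← Finset.sum_smul, hMW]
      simp only [e3, ite_smul, one_smul, zero_smul]
      rw [Finset.sum_ite_eq', if_pos (mem_univ i)]
    rw [e1]
    have e4 : ∀ m, W m i • G m =
        ∑ j, ne A u j (∑ m', (W m i * W m' j) • Ph A b (B m m')) := by
      intro m
      rw [hGB m, Finset.smul_sum]
      simp only [Tm_apply, map_sum, map_smul, Finset.smul_sum, smul_smul]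
      rw [Finset.sum_comm]
    simp only [e4]
    rw [Finset.sum_comm]
    refine Finset.sum_congr rfl fun j _ => ?_
    rw [← map_sum]

end Pool.Agent.Q64.EJ
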