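import Pool.Agent.Q64.EJ.StA

/-!
Project EI: torsion vectors vanish.
-/

set_option autoImplicit false

open Finset MvPolynomial

namespace Pool.Agent.Q64.EJ

theorem lma : S_lm1 → S_lm2 → S_lma := by
  intro h1 h2 d n A u M _ _ v hv hu hj
  by_contra hv0
  obtain ⟨S, a, w, hS, hw, hk, hN⟩ := h1 A u M v hv hv0 hj
  obtain ⟨r, hr⟩ := h2 A _ M S w hw hk
  have hc : (∑ j ∈ Sᶜ, (u j - (a j : ℂ)) + (d + 1) - r : ℂ) ≠ 0 := by
    intro h0
    have hne : (Sᶜ).Nonempty := by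
      rw [Finset.nonempty_iff_ne_empty]
      intro h
      exact hS (by rwa [Finset.compl_eq_empty_iff] at h)
    apply hu Sᶜ hne (∑ j ∈ Sᶜ, (a j : ℤ) - (d + 1) + r)
    rw [Finset.sum_sub_distrib] at h0
    push_cast
    linear_combination h0
  apply hN 1
  rw [pow_one]
  have h3 : (algebraMap ℂ (DZ (n + 1)) (∑ j ∈ Sᶜ, (u j - (a j : ℂ)) + (d + 1) - r)⁻¹) •
      (algebraMap ℂ (DZ (n + 1)) (∑ j ∈ Sᶜ, (u j - (a j : ℂ)) + (d + 1) - r) •
        (hd (∏ j ∈ S, X j) • w)) = 0 := by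
    rw [hr, smul_zero]
  rwa [← mul_smul, ← map_mul, inv_mul_cancel₀ hc, map_one, one_smul] at h3

end Pool.Agent.Q64.EJ
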