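import Mathlib
import Pool.Agent.Q64.EJ.Eva

/-! (written by helper224)
Project EI, job ONV: passage from `V` to `O`.
-/

set_option autoImplicit false

open Finset MvPolynomial Pool.Agent.Q64.EJ

namespace Pool.Agent.Q64.EJ.H224

section O

variable {d n : ℕ} (A : Matrix (Fin (d + 1)) (Fin (n + 1)) ℂ)

/-- The product of the `y_j` over a list. -/
noncomputable def Wl (l : List (Fin (n + 1))) : Fld d n := (l.map (yy A)).prod

/-- The parameter translated along a list. -/
def trl (u : Fin (n + 1) → ℂ) (l : List (Fin (n + 1))) : Fin (n + 1) → ℂ :=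
  fun i => u i + (l.count i : ℂ)

theorem Wl_nil : Wl A [] = 1 := by simp [Wl]

theorem Wl_cons (j : Fin (n + 1)) (l : List (Fin (n + 1))) : Wl A (j :: l) = yy A j * Wl A l := by
  simp [Wl]

theorem Wl_append (l l' : List (Fin (n + 1))) : Wl A (l ++ l') = Wl A l * Wl A l' := by
  simp [Wl]

theorem trl_nil (u : Fin (n + 1) → ℂ) : trl u [] = u := by
  funext i
  simp [trl]

theorem trl_cons (u : Fin (n + 1) → ℂ) (j : Fin (n + 1)) (l : List (Fin (n + 1))) :
    trl u (j :: l) = tr (trl u l) j 1 := by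
  funext i
  rw [trl, tr, trl, List.count_cons]
  by_cases h : i = j
  · simp [h]
    ring
  · have h' : ¬ j = i := fun e => h e.symm
    simp [h, h']

theorem Wl_mem (l : List (Fin (n + 1))) : Wl A l ∈ VV A := by
  induction l with
  | nil => rw [Wl_nil]; exact (VV A).one_mem
  | cons j l ih => rw [Wl_cons]; exact (VV A).mul_mem (yy_mem A j) ih

variable {A}

theorem yy_ne (hcol : ∀ j, ∃ i, A i j ≠ 0) (j : Fin (n + 1)) : yy A j ≠ 0 :=
  inv_ne_zero (el_ne A hcol j)

theorem Wl_ne (hcol : ∀ j, ∃ i, A i j ≠ 0) (l : List (Fin (n + 1))) : Wl A l ≠ 0 := by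
  induction l with
  | nil => rw [Wl_nil]; exact one_ne_zero
  | cons j l ih => rw [Wl_cons]; exact mul_ne_zero (yy_ne hcol j) ih

theorem tt_OO (i : Fin (d + 1)) : tt d n i ∈ OO A :=
  Algebra.subset_adjoin (Or.inl (Or.inl ⟨i, rfl⟩))

theorem zv_OO (j : Fin (n + 1)) : zv d n j ∈ OO A :=
  Algebra.subset_adjoin (Or.inl (Or.inr ⟨j, rfl⟩))

theorem yy_OO (j : Fin (n + 1)) : yy A j ∈ OO A := Algebra.subset_adjoin (Or.inr ⟨j, rfl⟩)

theorem VV_le : VV A ≤ OO A := by
  apply Algebra.adjoin_le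
  rintro x (⟨j, rfl⟩ | ⟨j, rfl⟩)
  · exact zv_OO j
  · exact yy_OO j

theorem el_OO (j : Fin (n + 1)) : el A j ∈ OO A :=
  (OO A).sum_mem fun i _ => (OO A).smul_mem (tt_OO i) _

theorem Wl_inv (l : List (Fin (n + 1))) : (Wl A l)⁻¹ ∈ OO A := by
  induction l with
  | nil => rw [Wl_nil, inv_one]; exact (OO A).one_mem
  | cons j l ih =>
    rw [Wl_cons, mul_inv, yy, inv_inv]
    exact (OO A).mul_mem (el_OO j) ih

theorem yy_ne_shift (hcol : ∀ j, ∃ i, A i j ≠ 0) (v : Fin (n + 1) → ℂ) (j : Fin (n + 1))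
    (i : Fin (d + 1)) (g : Fld d n) :
    yy A j * ne A v i g = ne A (tr v j 1) i (yy A j * g) := by
  have h1 : oe A (tr v j 1) i = oe A v i + algebraMap ℂ (Fld d n) (A i j) * yy A j := by
    rw [oe, oe, add_assoc]
    congr 1
    have h2 : ∀ k, tr v j 1 k • (fder (Sum.inl i) (el A k) / el A k) =
        v k • (fder (Sum.inl i) (el A k) / el A k) +
          if k = j then (algebraMap ℂ (Fld d n) (A i j) * yy A j) else 0 := by
      intro k
      rw [tr, add_smul]
      congr 1
      by_cases hk : k = j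
      · subst hk
        rw [if_pos rfl, if_pos rfl, Nat.cast_one, one_smul, fder_el_inl, yy, div_eq_mul_inv]
      · rw [if_neg hk, if_neg hk, zero_smul]
    rw [Finset.sum_congr rfl (fun k _ => h2 k), Finset.sum_add_distrib, Finset.sum_ite_eq' univ j,
      if_pos (Finset.mem_univ j)]
  have h3 : fder (Sum.inl i) (yy A j) = -(algebraMap ℂ (Fld d n) (A i j) * yy A j ^ 2) := by
    rw [yy, fder_inv, fder_el_inl]
  rw [ne_apply, ne_apply, Derivation.leibniz, h1, h3]
  simp only [smul_eq_mul]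
  ring

theorem Wl_ne_shift (hcol : ∀ j, ∃ i, A i j ≠ 0) (v : Fin (n + 1) → ℂ)
    (l : List (Fin (n + 1))) (i : Fin (d + 1)) (g : Fld d n) :
    Wl A l * ne A v i g = ne A (trl v l) i (Wl A l * g) := by
  induction l with
  | nil => rw [Wl_nil, one_mul, one_mul, trl_nil]
  | cons j l ih =>
    rw [Wl_cons, trl_cons, mul_assoc, ih, yy_ne_shift hcol, mul_assoc]

theorem InW_shift (hcol : ∀ j, ∃ i, A i j ≠ 0) {v : Fin (n + 1) → ℂ} (j : Fin (n + 1))
    {g : Fld d n} (hg : InW A v g) : InW A (tr v j 1) (yy A j * g) := by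
  obtain ⟨h, h', h1, h2, h3⟩ := hg
  refine ⟨fun i => yy A j * h i, yy A j * h', fun i => (VV A).mul_mem (yy_mem A j) (h1 i),
    (VV A).mul_mem (yy_mem A j) h2, ?_⟩
  rw [h3, Finset.mul_sum]
  apply Finset.sum_congr rfl
  intro i _
  rw [yy_ne_shift hcol]
  congr 1
  ring

theorem nonRes_trl {u : Fin (n + 1) → ℂ} (hu : NonRes u) (l : List (Fin (n + 1))) :
    NonRes (trl u l) := by
  intro S hS k h
  apply hu S hS (k - ∑ j ∈ S, (l.count j : ℤ))
  have h1 : ∑ j ∈ S, trl u l j = ∑ j ∈ S, u j + ∑ j ∈ S, (l.count j : ℂ) := by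
    rw [← Finset.sum_add_distrib]
    rfl
  rw [h1] at h
  push_cast
  rw [← h]
  ring

/-- Iterating the surjectivity statement. -/
theorem sur_list (hS : S_sur) (hcol : ∀ j, ∃ i, A i j ≠ 0) {u : Fin (n + 1) → ℂ} (hu : NonRes u)
    (l : List (Fin (n + 1))) : ∀ h ∈ VV A, ∃ v ∈ VV A, InW A (trl u l) (h - Wl A l * v) := by
  induction l with
  | nil =>
    intro h hh
    refine ⟨h, hh, ?_⟩
    rw [Wl_nil, one_mul, sub_self]
    exact inW_zero
  | cons j l ih =>
    intro h hh
    obtain ⟨g, hg, hw⟩ := hS A (trl u (j :: l)) hcol (nonRes_trl hu _) j h hh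
    obtain ⟨v, hv, hw'⟩ := ih g hg
    refine ⟨v, hv, ?_⟩
    have h1 := InW_shift hcol j hw'
    rw [← trl_cons] at h1
    have h2 := inW_add hw h1
    have h3 : h - yy A j * g + yy A j * (g - Wl A l * v) = h - Wl A (j :: l) * v := by
      rw [Wl_cons]
      ring
    rw [h3] at h2
    exact h2

theorem tt_comb (hr : A.rank = d + 1) (k : Fin (d + 1)) :
    ∃ b : Fin (n + 1) → ℂ, tt d n k = ∑ j, b j • el A j := by
  have hs : Function.Surjective A.mulVecLin := by
    rw [← LinearMap.range_eq_top]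
    apply Submodule.eq_top_of_finrank_eq
    rw [Module.finrank_fin_fun]
    exact hr
  obtain ⟨b, hb⟩ := hs (Pi.single k 1)
  refine ⟨b, ?_⟩
  have h1 : ∀ i, ∑ j, A i j * b j = if i = k then 1 else 0 := by
    intro i
    have h2 := congrFun hb i
    rw [Matrix.mulVecLin_apply, Matrix.mulVec, dotProduct] at h2
    rw [h2, Pi.single_apply]
  have h2 : ∑ j, b j • el A j = ∑ i, (∑ j, A i j * b j) • tt d n i := by
    simp only [el, Finset.smul_sum, Finset.sum_smul, smul_smul]
    rw [Finset.sum_comm]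
    apply Finset.sum_congr rfl
    intro i _
    apply Finset.sum_congr rfl
    intro j _
    rw [mul_comm]
  rw [h2, Finset.sum_eq_single k]
  · rw [h1, if_pos rfl, one_smul]
  · intro i _ hi
    rw [h1, if_neg hi, zero_smul]
  · intro h
    exact absurd (Finset.mem_univ k) h

theorem clear_el (hcol : ∀ j, ∃ i, A i j ≠ 0) (j : Fin (n + 1)) :
    Wl A (List.finRange (n + 1)) * el A j ∈ VV A := by
  have h1 : ∀ l : List (Fin (n + 1)), j ∈ l → Wl A l * el A j ∈ VV A := by
    intro l
    induction l with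
    | nil => intro h; exact absurd h List.not_mem_nil
    | cons i l ih =>
      intro h
      rw [Wl_cons]
      by_cases hij : i = j
      · subst hij
        have : yy A i * Wl A l * el A i = Wl A l := by
          rw [yy]
          have := el_ne A hcol i
          field_simp
        rw [this]
        exact Wl_mem A l
      · have hj : j ∈ l := by
          rcases List.mem_cons.mp h with h | h
          · exact absurd h.symm hij
          · exact h
        rw [mul_assoc]
        exact (VV A).mul_mem (yy_mem A i) (ih hj)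
  exact h1 _ (List.mem_finRange j)

theorem clear_OO (hr : A.rank = d + 1) (hcol : ∀ j, ∃ i, A i j ≠ 0) {g : Fld d n}
    (hg : g ∈ OO A) : ∃ l, Wl A l * g ∈ VV A := by
  unfold OO at hg
  induction hg using Algebra.adjoin_induction with
  | mem x hx =>
    rcases hx with (⟨i, rfl⟩ | ⟨j, rfl⟩) | ⟨j, rfl⟩
    · refine ⟨List.finRange (n + 1), ?_⟩
      obtain ⟨b, hb⟩ := tt_comb hr i
      rw [hb, Finset.mul_sum]
      apply (VV A).sum_mem
      intro j _
      rw [mul_smul_comm]
      exact (VV A).smul_mem (clear_el hcol j) _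
    · refine ⟨[], ?_⟩
      rw [Wl_nil, one_mul]
      exact zv_mem A j
    · refine ⟨[], ?_⟩
      rw [Wl_nil, one_mul]
      exact yy_mem A j
  | algebraMap c =>
    refine ⟨[], ?_⟩
    rw [Wl_nil, one_mul]
    exact (VV A).algebraMap_mem _
  | add x y _ _ hx hy =>
    obtain ⟨l, hl⟩ := hx
    obtain ⟨l', hl'⟩ := hy
    refine ⟨l ++ l', ?_⟩
    have : Wl A (l ++ l') * (x + y) = Wl A l' * (Wl A l * x) + Wl A l * (Wl A l' * y) := by
      rw [Wl_append]; ring
    rw [this]
    exact (VV A).add_mem ((VV A).mul_mem (Wl_mem A l') hl) ((VV A).mul_mem (Wl_mem A l) hl')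
  | mul x y _ _ hx hy =>
    obtain ⟨l, hl⟩ := hx
    obtain ⟨l', hl'⟩ := hy
    refine ⟨l ++ l', ?_⟩
    have : Wl A (l ++ l') * (x * y) = (Wl A l * x) * (Wl A l' * y) := by
      rw [Wl_append]; ring
    rw [this]
    exact (VV A).mul_mem hl hl'

theorem clear_fam (hr : A.rank = d + 1) (hcol : ∀ j, ∃ i, A i j ≠ 0)
    (h : Fin (d + 1) → Fld d n) (hh : ∀ i, h i ∈ OO A) (s : Finset (Fin (d + 1))) :
    ∃ l, ∀ i ∈ s, Wl A l * h i ∈ VV A := by
  induction s using Finset.induction_on with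
  | empty => exact ⟨[], fun i hi => absurd hi (Finset.notMem_empty i)⟩
  | insert a s _ ih =>
    obtain ⟨l, hl⟩ := ih
    obtain ⟨l', hl'⟩ := clear_OO hr hcol (hh a)
    refine ⟨l ++ l', ?_⟩
    intro i hi
    rw [Finset.mem_insert] at hi
    rcases hi with rfl | hi
    · have : Wl A (l ++ l') * h i = Wl A l * (Wl A l' * h i) := by
        rw [Wl_append]; ring
      rw [this]
      exact (VV A).mul_mem (Wl_mem A l) hl'
    · have : Wl A (l ++ l') * h i = Wl A l' * (Wl A l * h i) := by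
        rw [Wl_append]; ring
      rw [this]
      exact (VV A).mul_mem (Wl_mem A l') (hl i hi)

theorem tr_tr (v : Fin (n + 1) → ℂ) (j : Fin (n + 1)) (k : ℕ) :
    tr (tr v j k) j 1 = tr v j (k + 1) := by
  funext i
  rw [tr, tr, tr]
  split_ifs
  · push_cast
    ring
  · ring

/-- Removing one factor. -/
theorem remove (hI : S_ina) (hB : S_inb) (hcol : ∀ j, ∃ i, A i j ≠ 0) {u : Fin (n + 1) → ℂ}
    (hu : NonRes u) (hm : Mov A u) (l : List (Fin (n + 1))) (j : Fin (n + 1)) :
    ∀ g ∈ VV A, InW A (tr (trl u l) j 1) (yy A j * g) → InW A (trl u l) g := by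
  obtain ⟨k, hk⟩ := hI A (trl u l) hcol (nonRes_trl hu l) j
  obtain ⟨σ, hσA, hσ⟩ := hm (fun i => if i = j then (k : ℤ) else 0)
  refine hB A (trl u l) (tr (trl u l) j k) σ hσA ?_ j ?_
  · intro i
    rw [trl, map_add, hσ, map_natCast, tr, trl]
    split_ifs
    · push_cast
      ring
    · push_cast
      ring
  · intro g hg h
    rw [tr_tr] at h
    exact hk g hg h

end O

theorem onv : S_sur → S_ina → S_inb → S_onv := by
  intro hS hI hB d n A u hr hcol hu
  constructor
  · intro g hg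
    obtain ⟨l, hl⟩ := clear_OO hr hcol hg
    obtain ⟨v, hv, hw⟩ := sur_list hS hcol hu l _ hl
    refine ⟨v, hv, ?_⟩
    obtain ⟨h, h', h1, h2, h3⟩ := hw
    refine ⟨fun i => (Wl A l)⁻¹ * (h i + tt d n i * h'), ?_, ?_⟩
    · intro i
      exact (OO A).mul_mem (Wl_inv l) ((OO A).add_mem (VV_le (h1 i))
        ((OO A).mul_mem (tt_OO i) (VV_le h2)))
    · have hne := Wl_ne hcol l
      apply mul_left_cancel₀ hne
      rw [mul_sub, h3, Finset.mul_sum]
      apply Finset.sum_congr rfl
      intro i _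
      rw [Wl_ne_shift hcol, mul_inv_cancel_left₀ hne]
  · intro hm g hg hK
    obtain ⟨h, hh, h3⟩ := hK
    obtain ⟨l, hl⟩ := clear_fam hr hcol h hh univ
    have h4 : InW A (trl u l) (Wl A l * g) := by
      refine ⟨fun i => Wl A l * h i, 0, fun i => hl i (Finset.mem_univ i), (VV A).zero_mem, ?_⟩
      rw [h3, Finset.mul_sum]
      apply Finset.sum_congr rfl
      intro i _
      rw [Wl_ne_shift hcol, mul_zero, add_zero]
    clear h3 hl
    induction l with
    | nil =>
      rw [Wl_nil, one_mul, trl_nil] at h4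
      exact h4
    | cons j l ih =>
      apply ih
      rw [trl_cons, Wl_cons, mul_assoc] at h4
      exact remove hI hB hcol hu hm l j _ ((VV A).mul_mem (Wl_mem A l) hg) h4

end Pool.Agent.Q64.EJ.H224
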