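import Pool.Agent.Q64.EJ.StB

/-!
Project EI (helper64), row MP_2f98db_ag: closure properties of the algebras `O` and `V`.
-/

set_option autoImplicit false

open Finset MvPolynomial

namespace Pool.Agent.Q64.EJ.Oo

open Pool.Agent.Q64.EJ

variable {d n : ℕ} (A : Matrix (Fin (d + 1)) (Fin (n + 1)) ℂ) (u : Fin (n + 1) → ℂ)

theorem tt_mem (i : Fin (d + 1)) : tt d n i ∈ OO A :=
  Algebra.subset_adjoin (Or.inl (Or.inl ⟨i, rfl⟩))

theorem zv_mem (j : Fin (n + 1)) : zv d n j ∈ OO A :=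
  Algebra.subset_adjoin (Or.inl (Or.inr ⟨j, rfl⟩))

theorem eli_mem (j : Fin (n + 1)) : (el A j)⁻¹ ∈ OO A := Algebra.subset_adjoin (Or.inr ⟨j, rfl⟩)

theorem yy_mem (j : Fin (n + 1)) : yy A j ∈ OO A := Algebra.subset_adjoin (Or.inr ⟨j, rfl⟩)

theorem el_mem (j : Fin (n + 1)) : el A j ∈ OO A :=
  (OO A).sum_mem fun i _ => (OO A).smul_mem (tt_mem A i) _

theorem ff_mem : ff A ∈ OO A :=
  (OO A).sum_mem fun j _ => by
    rw [div_eq_mul_inv]
    exact (OO A).mul_mem (zv_mem A j) (eli_mem A j)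

theorem oo_le_rr : OO A ≤ RR A := by
  refine Algebra.adjoin_mono ?_
  rintro x ((h | h) | h)
  · exact Or.inl (Or.inl (Or.inl h))
  · exact Or.inl (Or.inl (Or.inr h))
  · exact Or.inl (Or.inr h)

theorem vv_le_oo : VV A ≤ OO A := by
  refine Algebra.adjoin_mono ?_
  rintro x (h | h)
  · exact Or.inl (Or.inr h)
  · exact Or.inr h

theorem fder_ff_mem (v : Fin (d + 1) ⊕ Fin (n + 1)) : fder v (ff A) ∈ OO A := by
  rcases v with i | j
  · rw [fder_ff_inl]
    exact (OO A).neg_mem ((OO A).sum_mem fun j _ => (OO A).smul_mem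
      ((OO A).mul_mem (zv_mem A j) ((OO A).pow_mem (eli_mem A j) 2)) _)
  · rw [fder_ff_inr]
    exact eli_mem A j

theorem fder_mem (v : Fin (d + 1) ⊕ Fin (n + 1)) {g : Fld d n} (hg : g ∈ OO A) :
    fder v g ∈ OO A := by
  induction hg using Algebra.adjoin_induction with
  | mem x hx =>
    rcases hx with (⟨i, rfl⟩ | ⟨j, rfl⟩) | ⟨j, rfl⟩
    · rw [fder_tt]; split_ifs
      · exact (OO A).one_mem
      · exact (OO A).zero_mem
    · rw [fder_zv]; split_ifs
      · exact (OO A).one_mem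
      · exact (OO A).zero_mem
    · rw [yy, fder_inv]
      refine (OO A).neg_mem ((OO A).mul_mem ?_ ((OO A).pow_mem (eli_mem A j) 2))
      rcases v with i | k
      · rw [fder_el_inl]; exact (OO A).algebraMap_mem _
      · rw [fder_el_inr]; exact (OO A).zero_mem
  | algebraMap r => rw [Derivation.map_algebraMap]; exact (OO A).zero_mem
  | add x y _ _ hx hy => rw [map_add]; exact (OO A).add_mem hx hy
  | mul x y hx' hy' hx hy =>
    rw [Derivation.leibniz, smul_eq_mul, smul_eq_mul]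
    exact (OO A).add_mem ((OO A).mul_mem hx' hy) ((OO A).mul_mem hy' hx)

/-- The function `∑ u_j (∂ℓ_j/∂t_i) / ℓ_j`. -/
noncomputable def lam (i : Fin (d + 1)) : Fld d n :=
  ∑ j, u j • (fder (Sum.inl i) (el A j) / el A j)

theorem lam_mem (i : Fin (d + 1)) : lam A u i ∈ OO A := by
  refine (OO A).sum_mem fun j _ => (OO A).smul_mem ?_ _
  rw [div_eq_mul_inv, fder_el_inl]
  exact (OO A).mul_mem ((OO A).algebraMap_mem _) (eli_mem A j)

theorem oe_eq (i : Fin (d + 1)) : oe A u i = fder (Sum.inl i) (ff A) + lam A u i := rfl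

theorem oe_mem (i : Fin (d + 1)) : oe A u i ∈ OO A := by
  rw [oe_eq]
  exact (OO A).add_mem (fder_ff_mem A _) (lam_mem A u i)

theorem ne_mem (i : Fin (d + 1)) {g : Fld d n} (hg : g ∈ OO A) : ne A u i g ∈ OO A := by
  rw [ne_apply]
  exact (OO A).add_mem (fder_mem A _ hg) ((OO A).mul_mem (oe_mem A u i) hg)

theorem de_mem (j : Fin (n + 1)) {g : Fld d n} (hg : g ∈ OO A) : de A j g ∈ OO A := by
  rw [de_apply]
  exact (OO A).add_mem (fder_mem A _ hg) ((OO A).mul_mem (fder_ff_mem A _) hg)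

theorem actE_mem (Q : DZ (n + 1)) : ∀ g : Fld d n, g ∈ OO A → actE A Q g ∈ OO A := by
  refine dz_induction (P := fun Q => ∀ g : Fld d n, g ∈ OO A → actE A Q g ∈ OO A)
    ?_ ?_ ?_ ?_ ?_ Q
  · intro j g hg
    rw [actE_zz, LinearMap.mulLeft_apply]
    exact (OO A).mul_mem (zv_mem A j) hg
  · intro j g hg
    rw [actE_dd]
    exact de_mem A j hg
  · intro c g hg
    rw [AlgHom.commutes, Module.algebraMap_end_apply]
    exact (OO A).smul_mem hg c
  · intro a b ha hb g hg
    have e : actE A (a * b) = actE A a * actE A b := map_mul _ a b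
    rw [e, Module.End.mul_apply]
    exact ha _ (hb _ hg)
  · intro a b ha hb g hg
    rw [map_add, LinearMap.add_apply]
    exact (OO A).add_mem (ha g hg) (hb g hg)

theorem fder_zpow (v : Fin (d + 1) ⊕ Fin (n + 1)) (g : Fld d n) (k : ℤ) :
    fder v (g ^ k) = (k : Fld d n) * g ^ (k - 1) * fder v g := by
  have := (fder v : Derivation ℂ (Fld d n) (Fld d n)).leibniz_zpow g k
  rw [this, zsmul_eq_mul, smul_eq_mul, mul_assoc]

theorem tdeg_zpow {q : ℤ} {g : Fld d n} (hg : TDeg q g) (h0 : g ≠ 0) (k : ℤ) :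
    TDeg (k * q) (g ^ k) := by
  unfold TDeg at *
  simp only [fder_zpow]
  have h1 : ∑ i, tt d n i * ((k : Fld d n) * g ^ (k - 1) * fder (Sum.inl i) g) =
      (k : Fld d n) * g ^ (k - 1) * ∑ i, tt d n i * fder (Sum.inl i) g := by
    rw [Finset.mul_sum]
    exact Finset.sum_congr rfl fun i _ => by ring
  rw [h1, hg, zpow_sub_one₀ h0]
  push_cast
  field_simp

theorem tdeg_lam (i : Fin (d + 1)) : TDeg (-1) (lam A u i) := by
  refine tdeg_sum _ _ fun j _ => tdeg_smul _ ?_
  rw [div_eq_mul_inv]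
  have := tdeg_mul (tdeg_fdert (tdeg_el A j) i) (tdeg_inv (tdeg_el A j))
  simpa using this

theorem om_eq (i : Fin (d + 1)) :
    om A u i = (∑ j, u j) • (fder (Sum.inl i) (ff A) / ff A) + lam A u i := by
  have e : -(sp d u + d + 1) = ∑ j, u j := by
    rw [sp]
    ring
  rw [om, e]
  rfl

theorem bj_eq (j : Fin (n + 1)) : bj A u j = (∑ j, u j) • ((el A j)⁻¹ / ff A) := by
  have e : -(sp d u + d + 1) = ∑ j, u j := by
    rw [sp]
    ring
  rw [bj, e, fder_ff_inr]

/-- Induction on homogeneous elements of `O`. -/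
theorem hom_induction (hgrd : S_grd) {P : Fld d n → Prop} (h0 : P 0)
    (ha : ∀ a b, P a → P b → P (a + b)) (hh : ∀ (m : ℤ) (g : Fld d n), g ∈ OO A → TDeg m g → P g)
    (g : Fld d n) (hg : g ∈ OO A) : P g := by
  obtain ⟨c, hc, rfl⟩ := hgrd A g hg
  rw [Finsupp.sum]
  have : ∀ s : Finset ℤ, P (∑ q ∈ s, c q) := by
    intro s
    classical
    induction s using Finset.induction_on with
    | empty => rw [Finset.sum_empty]; exact h0
    | insert a s has ih =>
      rw [Finset.sum_insert has]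
      exact ha _ _ (hh a _ (hc a).1 (hc a).2) ih
  exact this _

end Pool.Agent.Q64.EJ.Oo
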