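import Mathlib
import Pool.Agent.Q64.EJ.Rel

/-! (written by helper224)
Project EI, job SUR: `V = y_j V + W(u)` for non-resonant `u`.
-/

set_option autoImplicit false

open Finset MvPolynomial Pool.Agent.Q64.EJ

namespace Pool.Agent.Q64.EJ.H224

theorem sur : S_lma → S_eva → S_rel → S_sur := by
  intro hL hE hR d n A u hcol hnr j g hg
  let N : Submodule (DZ (n + 1)) (DZ (n + 1)) := HL A u ⊔ Submodule.span (DZ (n + 1)) {dd j}
  have hv : (Submodule.Quotient.mk 1 : DZ (n + 1) ⧸ N) = 0 := by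
    refine hL A u (DZ (n + 1) ⧸ N) _ ?_ hnr ⟨j, 1, ?_⟩
    · intro Q hQ
      rw [← Submodule.Quotient.mk_smul, Submodule.Quotient.mk_eq_zero, smul_eq_mul, mul_one]
      exact Submodule.mem_sup_left hQ
    · rw [pow_one, ← Submodule.Quotient.mk_smul, Submodule.Quotient.mk_eq_zero, smul_eq_mul,
        mul_one]
      exact Submodule.mem_sup_right (Submodule.subset_span rfl)
  rw [Submodule.Quotient.mk_eq_zero] at hv
  obtain ⟨H, hH, D, hD, h1⟩ := Submodule.mem_sup.mp hv
  obtain ⟨Q, rfl⟩ := Submodule.mem_span_singleton.mp hD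
  obtain ⟨Q0, rfl⟩ := (hE A hcol).2.1 g hg
  refine ⟨actE A (Q0 * Q) 1, (hE A hcol).1 _, ?_⟩
  have h2 : Q0 = Q0 * H + Q0 * Q * dd j := by
    rw [smul_eq_mul] at h1
    calc Q0 = Q0 * 1 := (mul_one _).symm
      _ = Q0 * (H + Q * dd j) := by rw [h1]
      _ = Q0 * H + Q0 * Q * dd j := by rw [mul_add, mul_assoc]
  have h3 : actE A Q0 1 - yy A j * actE A (Q0 * Q) 1 = actE A (Q0 * H) 1 := by
    have h4 : actE A Q0 1 = actE A (Q0 * H) 1 + yy A j * actE A (Q0 * Q) 1 := by
      conv_lhs => rw [h2]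
      rw [map_add, LinearMap.add_apply, map_mul (actE A) (Q0 * Q) (dd j), Module.End.mul_apply,
        actE_dd, de_one]
      congr 1
      have h5 := actE_yy A j (Q0 * Q) 1
      rw [mul_one] at h5
      exact h5
    rw [h4]
    ring
  rw [h3]
  refine (hR A u hcol (Q0 * H)).mp ?_
  rw [← smul_eq_mul]
  exact Submodule.smul_mem _ _ hH

end Pool.Agent.Q64.EJ.H224
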